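import Mathlib

/-!
Oracle machines, the relativised classes `BPP_path`, `NP`, `Sigma_2^p = NP^NP` and deterministic
machines with few queries to a second oracle.
-/

namespace BppPath

/-- A language over the alphabet `{0,1}`, given by its characteristic function.
Oracles are languages. -/
abbrev Lang := List Bool → Bool

/-- Instructions of a machine with finitely many stacks of bits (two stacks are a Turing tape).
Every instruction names its successor state(s), so a program is the transition table of a
finite control. Each executed instruction costs one step.
* `push s b q`: push the bit `b` on stack `s`, go to state `q`;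
* `pop s e z o`: go to state `e` if stack `s` is empty; otherwise remove its top bit and go to
  state `z` if that bit is `0`, to state `o` if it is `1`;
* `ask i s no yes`: ask oracle number `i` whether the content of stack `s` (top bit first)
  belongs to it, and go to state `yes` or `no` accordingly;
* `guess l r`: nondeterministic branching, the two successor states are `l` and `r`;
* `accept`, `reject`: halt. -/
inductive Instr
  | push (s : ℕ) (b : Bool) (q : ℕ)
  | pop (s : ℕ) (e z o : ℕ)
  | ask (i : Bool) (s : ℕ) (no yes : ℕ)
  | guess (l r : ℕ)
  | accept
  | reject
  deriving DecidableEq, Countable

/-- A program: state `j` executes the `j`-th instruction (missing states reject). -/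
abbrev Prog := List Instr

/-- A configuration: the current state and the stacks (a program only touches the finitely
many stacks it names). -/
structure Cfg where
  pc : ℕ
  st : ℕ → List Bool

/-- The initial configuration on input `x`: state `0`, `x` on stack `0`, all other stacks
empty. -/
def init (x : List Bool) : Cfg := ⟨0, fun s => if s = 0 then x else []⟩

/-- The result of one step. -/
inductive Res
  | halt (b : Bool)
  | cont (c : Cfg)
  | fork (c c' : Cfg)

/-- One step of the program `P` with the oracles `ans false` and `ans true`. -/
def step (P : Prog) (ans : Bool → Lang) (c : Cfg) : Res :=
  match P[c.pc]? with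
  | some (.push s b q) => .cont ⟨q, Function.update c.st s (b :: c.st s)⟩
  | some (.pop s e z o) =>
      match c.st s with
      | [] => .cont ⟨e, c.st⟩
      | false :: l => .cont ⟨z, Function.update c.st s l⟩
      | true :: l => .cont ⟨o, Function.update c.st s l⟩
  | some (.ask i s no yes) => .cont ⟨if ans i (c.st s) then yes else no, c.st⟩
  | some (.guess l r) => .fork ⟨l, c.st⟩ ⟨r, c.st⟩
  | some .accept => .halt true
  | some .reject => .halt false
  | none => .halt false

/-- `count P ans t c = some (a, r)` says that all computation paths from `c` halt within `t`
steps and exactly `a` of them accept and `r` of them reject; it is `none` if some path does not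
halt within `t` steps. Paths may have different lengths. -/
def count (P : Prog) (ans : Bool → Lang) : ℕ → Cfg → Option (ℕ × ℕ)
  | 0, _ => none
  | t + 1, c =>
      match step P ans c with
      | .halt true => some (1, 0)
      | .halt false => some (0, 1)
      | .cont c' => count P ans t c'
      | .fork c₁ c₂ =>
          match count P ans t c₁, count P ans t c₂ with
          | some p, some q => some (p.1 + q.1, p.2 + q.2)
          | _, _ => none

/-- The two oracles of a machine: `ask false` asks `A`, `ask true` asks `K`. -/
def pair (A K : Lang) : Bool → Lang := fun i => if i then K else A

/-- The oracles of a machine with one oracle `A`: `ask true` asks `A` (and `ask false` asks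
the empty language). -/
def single (A : Lang) : Bool → Lang := pair (fun _ => false) A

/-- `L ∈ BPP_path` relative to the oracle `A`: a nondeterministic polynomial-time machine `P`
with oracle `A` has, on every input `x`, more than three quarters of its computation paths
accepting if `x ∈ L` and more than three quarters of them rejecting if `x ∉ L`. -/
def InBPPpath (A L : Lang) : Prop :=
  ∃ (P : Prog) (k : ℕ), ∀ x : List Bool, ∃ a r : ℕ,
    count P (single A) (x.length ^ k + k) (init x) = some (a, r) ∧
    (L x = true → 3 * (a + r) < 4 * a) ∧ (L x = false → 3 * (a + r) < 4 * r)

/-- `L ∈ NP` relative to the oracle `A`. -/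
def InNP (A L : Lang) : Prop :=
  ∃ (P : Prog) (k : ℕ), ∀ x : List Bool, ∃ a r : ℕ,
    count P (single A) (x.length ^ k + k) (init x) = some (a, r) ∧
    (L x = true ↔ 0 < a)

/-- `L ∈ Σ₂ᵖ = NP^NP` relative to the oracle `A`. -/
def InSigma2 (A L : Lang) : Prop := ∃ K : Lang, InNP A K ∧ InNP K L

/-- A deterministic program never branches. -/
def Det (P : Prog) : Prop := ∀ l r : ℕ, Instr.guess l r ∉ P

/-- The number of queries to the second oracle (`ask true`) in the first `t` steps of a
deterministic program. -/
def asks (P : Prog) (ans : Bool → Lang) : ℕ → Cfg → ℕ
  | 0, _ => 0
  | t + 1, c =>
      (match P[c.pc]? with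
        | some (.ask true _ _ _) => 1
        | _ => 0) +
      (match step P ans c with
        | .cont c' => asks P ans t c'
        | _ => 0)

/-- The deterministic program `P`, with unrestricted access to the oracle `A` and with at most
`q n` queries to the oracle `K` on inputs of length `n`, decides `L` in time `T n`. -/
def Decides (P : Prog) (A K : Lang) (T q : ℕ → ℕ) (L : Lang) : Prop :=
  Det P ∧ ∀ x : List Bool,
    count P (pair A K) (T x.length) (init x) = some (if L x then (1, 0) else (0, 1)) ∧
    asks P (pair A K) (T x.length) (init x) ≤ q x.length

end BppPath
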