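import Mathlib
import Pool.Agent.BppPath.Defs

/-!
Single computation paths with index-dependent oracle answers, and their query traces.
-/

namespace BppPath

/-- `1` if the current instruction is a query to the second oracle, `0` otherwise. -/
def isAsk (P : Prog) (c : Cfg) : ℕ :=
  match P[c.pc]? with
  | some (.ask true _ _ _) => 1
  | _ => 0

/-- The list of the query (if any) made at `c` when `i` queries to the second oracle were made
before. -/
def curQ (P : Prog) (i : ℕ) (c : Cfg) : List (ℕ × Bool × List Bool) :=
  match P[c.pc]? with
  | some (.ask b s _ _) => [(i, b, c.st s)]
  | _ => []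

/-- The computation path with choices `y` (read at the index remaining fuel), oracle answers
`ans i` where `i` is the number of queries to the second oracle made before. -/
def path (P : Prog) (ans : ℕ → Bool → Lang) (y : ℕ → Bool) : ℕ → ℕ → Cfg → Option Bool
  | 0, _, _ => none
  | t + 1, i, c =>
      match step P (ans i) c with
      | .halt b => some b
      | .cont c' => path P ans y t (i + isAsk P c) c'
      | .fork c₁ c₂ => path P ans y t i (if y t then c₁ else c₂)

/-- The queries made along the path: `(i, b, u)` is the query `u` to oracle `b`, made after `i`
queries to the second oracle. -/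
def trace (P : Prog) (ans : ℕ → Bool → Lang) (y : ℕ → Bool) :
    ℕ → ℕ → Cfg → List (ℕ × Bool × List Bool)
  | 0, _, _ => []
  | t + 1, i, c => curQ P i c ++
      match step P (ans i) c with
      | .halt _ => []
      | .cont c' => trace P ans y t (i + isAsk P c) c'
      | .fork c₁ c₂ => trace P ans y t i (if y t then c₁ else c₂)

open Classical in
/-- The language of an NP machine with oracle `A` and time bound `n ^ k + k`. -/
noncomputable def npLang (P : Prog) (k : ℕ) (A : Lang) : Lang := fun x =>
  decide (∃ y : ℕ → Bool,
    path P (fun _ => single A) y (x.length ^ k + k) 0 (init x) = some true)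

/-- Extension of a finite bit string by zeros. -/
def ext {n : ℕ} (f : Fin n → Bool) : ℕ → Bool := fun i => if h : i < n then f ⟨i, h⟩ else false

end BppPath
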