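import Mathlib
import Pool.Agent.BppPath.PathDefs

/-!
Certificates for `v ∈ npLang N kN (npLang M kM O)` (a `Σ₂` computation) and for the run of a
machine `P` with free oracle `O` and few queries to that `Σ₂` language.
-/

namespace BppPath

/-- A `Σ₂` certificate: choices of `N`, answers to its queries, and for the `j`-th query (if
answered yes) the choices of an accepting path of `M`. -/
structure Cert2 where
  y : ℕ → Bool
  b : ℕ → Bool
  z : ℕ → ℕ → Bool

/-- Validity of a `Σ₂` certificate for `v` at the oracle `O`. -/
def Valid2 (N : Prog) (kN : ℕ) (M : Prog) (kM : ℕ) (O : Lang) (v : List Bool) (σ : Cert2) :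
    Prop :=
  path N (fun j => single (fun _ => σ.b j)) σ.y (v.length ^ kN + kN) 0 (init v) = some true ∧
  ∀ (j : ℕ) (u : List Bool),
    (j, true, u) ∈ trace N (fun j => single (fun _ => σ.b j)) σ.y (v.length ^ kN + kN) 0
      (init v) →
    (σ.b j = true →
      path M (fun _ => single O) (σ.z j) (u.length ^ kM + kM) 0 (init u) = some true) ∧
    (σ.b j = false → npLang M kM O u = false)

/-- Finite `Σ₂` certificates. -/
abbrev FCert2 (TN TM : ℕ) := (Fin TN → Bool) × (Fin TN → Bool) × (Fin TN → Fin TM → Bool)

/-- A finite `Σ₂` certificate as a `Σ₂` certificate. -/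
def FCert2.toCert {TN TM : ℕ} (s : FCert2 TN TM) : Cert2 where
  y := ext s.1
  b := ext s.2.1
  z := fun j => if h : j < TN then ext (s.2.2 ⟨j, h⟩) else fun _ => false

/-- Certificates of the top machine: answers to the (at most `q`) queries, the output, and a
`Σ₂` certificate for every query (only used if it is answered yes). -/
abbrev Cert3 (q TN TM : ℕ) := (Fin q → Bool) × Bool × (Fin q → FCert2 TN TM)

/-- The level of a certificate: its answer vector, lexicographically ordered. -/
def Cert3.lev {q TN TM : ℕ} (c : Cert3 q TN TM) : Lex (Fin q → Bool) := toLex c.1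

/-- Validity of a certificate of the top machine `P` on input `x` with fuel `T` at the
oracle `O`. -/
def Valid3 (P N : Prog) (kN : ℕ) (M : Prog) (kM : ℕ) (T q TN TM : ℕ) (x : List Bool) (O : Lang)
    (c : Cert3 q TN TM) : Prop :=
  path P (fun i => pair O (fun _ => ext c.1 i)) (fun _ => false) T 0 (init x) = some c.2.1 ∧
  ∀ i : Fin q, c.1 i = true → ∃ v : List Bool,
    (i.val, true, v) ∈
      trace P (fun i => pair O (fun _ => ext c.1 i)) (fun _ => false) T 0 (init x) ∧
    Valid2 N kN M kM O v (c.2.2 i).toCert

/-- `TN`, `TM` are large enough for all queries of the top machine. -/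
def Big (kN kM T TN TM : ℕ) (x : List Bool) : Prop :=
  (x.length + T) ^ kN + kN ≤ TN ∧ (x.length + T + TN) ^ kM + kM ≤ TM

end BppPath
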