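import Mathlib
import Pool.Agent.BppPath.Defs

/-!
The coding of the instances in the oracle.

For `c, n` and `y ∈ {0,1}^ℓ`, `ℓ = ell c n = n ^ (2 c + 8)`, the oracle strings `codeA c n y`, `codeB c n y`
say whether `y ∈ A`, `y ∈ B`; `codeC c n y` (any length of `y`) is the clock: it tells whether
`|y| ≥ ℓ`.
-/

namespace BppPath

/-- Length of the elements of the instance `(c, n)`. -/
def ell (c n : ℕ) : ℕ := n ^ (2 * c + 8)

/-- Self-delimiting (from the end) code of `(c, n)`. -/
def base (c n : ℕ) : List Bool :=
  false :: (List.replicate n true ++ false :: List.replicate c true)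

def codeC (c n : ℕ) (y : List Bool) : List Bool := false :: (y ++ base c n)
def codeA (c n : ℕ) (y : List Bool) : List Bool := true :: false :: (y ++ base c n)
def codeB (c n : ℕ) (y : List Bool) : List Bool := true :: true :: (y ++ base c n)

/-- Elements of the instance `(c, n)`. -/
abbrev El (c n : ℕ) := List.Vector Bool (ell c n)

/-- The clock condition. -/
def Clock (O : Lang) : Prop :=
  ∀ (c n : ℕ) (y : List Bool), O (codeC c n y) = decide (ell c n ≤ y.length)

def setA (O : Lang) (c n : ℕ) : Finset (El c n) :=
  Finset.univ.filter (fun y => O (codeA c n y.1) = true)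

def setB (O : Lang) (c n : ℕ) : Finset (El c n) :=
  Finset.univ.filter (fun y => O (codeB c n y.1) = true)

/-- The promise on the oracle. -/
def Promise (O : Lang) : Prop :=
  Clock O ∧ ∀ c n : ℕ, Disjoint (setA O c n) (setB O c n) ∧
    (8 * (setB O c n).card ≤ (setA O c n).card ∨ 8 * (setA O c n).card ≤ (setB O c n).card)

/-- The language `L_c` of the oracle `O`: it depends only on the length of the input. -/
def lang (c : ℕ) (O : Lang) : Lang := fun x =>
  decide (1 ≤ (setA O c x.length).card ∧
    8 * (setB O c x.length).card ≤ (setA O c x.length).card)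

open Classical in
/-- Replace the instance `(c, n)` of `O` by `(A, B)`. -/
noncomputable def patch (O : Lang) (c n : ℕ) (A B : Finset (El c n)) : Lang := fun w =>
  if ∃ y : El c n, w = codeA c n y.1 then decide (∃ y ∈ A, w = codeA c n y.1)
  else if ∃ y : El c n, w = codeB c n y.1 then decide (∃ y ∈ B, w = codeB c n y.1)
  else O w

end BppPath
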