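import Mathlib
import Pool.Agent.BppPath.CodeDefs

/-!
Patching the oracle at one instance.
-/

namespace BppPath

private theorem Code1_rep_inj {a b : ℕ} {l l' : List Bool}
    (h : List.replicate a true ++ false :: l = List.replicate b true ++ false :: l') :
    a = b ∧ l = l' := by
  induction a generalizing b with
  | zero =>
    cases b with
    | zero => simpa using h
    | succ b => simp [List.replicate_succ] at h
  | succ a ih =>
    cases b with
    | zero => simp [List.replicate_succ] at h
    | succ b =>
      simp only [List.replicate_succ, List.cons_append, List.cons.injEq, true_and] at h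
      obtain ⟨h1, h2⟩ := ih h
      exact ⟨by rw [h1], h2⟩

/-- The codes determine `c`, `n`, `y` (read from the end: `c` is the number of trailing `true`s,
then `n`). -/
theorem base_inj {c n c' n' : ℕ} {y y' : List Bool} (h : y ++ base c n = y' ++ base c' n') :
    c = c' ∧ n = n' ∧ y = y' := by
  have h1 := congrArg List.reverse h
  unfold base at h1
  simp only [List.reverse_append, List.reverse_cons, List.reverse_replicate, List.append_assoc,
    List.singleton_append] at h1
  obtain ⟨hc, h2⟩ := Code1_rep_inj h1
  obtain ⟨hn, h3⟩ := Code1_rep_inj h2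
  exact ⟨hc, hn, List.reverse_injective h3⟩

theorem Code1_A_inj {c n c' n' : ℕ} {y y' : List Bool} (h : codeA c n y = codeA c' n' y') :
    c = c' ∧ n = n' ∧ y = y' := by
  unfold codeA at h
  simp only [List.cons.injEq, true_and] at h
  exact base_inj h

theorem Code1_B_inj {c n c' n' : ℕ} {y y' : List Bool} (h : codeB c n y = codeB c' n' y') :
    c = c' ∧ n = n' ∧ y = y' := by
  unfold codeB at h
  simp only [List.cons.injEq, true_and] at h
  exact base_inj h

theorem Code1_B_ne_A {c n c' n' : ℕ} {y y' : List Bool} : codeB c n y ≠ codeA c' n' y' := by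
  intro h
  unfold codeA codeB at h
  simp at h

theorem Code1_C_ne_A {c n c' n' : ℕ} {y y' : List Bool} : codeC c n y ≠ codeA c' n' y' := by
  intro h
  unfold codeA codeC at h
  simp at h

theorem Code1_C_ne_B {c n c' n' : ℕ} {y y' : List Bool} : codeC c n y ≠ codeB c' n' y' := by
  intro h
  unfold codeB codeC at h
  simp at h

theorem Code1_patch_A (O : Lang) (c n : ℕ) (A B : Finset (El c n)) (y : El c n) :
    patch O c n A B (codeA c n y.1) = decide (y ∈ A) := by
  classical
  unfold patch
  rw [if_pos ⟨y, rfl⟩]
  by_cases hy : y ∈ A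
  · rw [decide_eq_true hy]
    exact decide_eq_true ⟨y, hy, rfl⟩
  · rw [decide_eq_false hy]
    apply decide_eq_false
    rintro ⟨y', hy', h⟩
    have := (Code1_A_inj h).2.2
    have h2 : y = y' := Subtype.ext this
    rw [h2] at hy
    exact hy hy'

theorem Code1_patch_B (O : Lang) (c n : ℕ) (A B : Finset (El c n)) (y : El c n) :
    patch O c n A B (codeB c n y.1) = decide (y ∈ B) := by
  classical
  unfold patch
  rw [if_neg (by rintro ⟨y', h⟩; exact Code1_B_ne_A h), if_pos ⟨y, rfl⟩]
  by_cases hy : y ∈ B
  · rw [decide_eq_true hy]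
    exact decide_eq_true ⟨y, hy, rfl⟩
  · rw [decide_eq_false hy]
    apply decide_eq_false
    rintro ⟨y', hy', h⟩
    have := (Code1_B_inj h).2.2
    have h2 : y = y' := Subtype.ext this
    rw [h2] at hy
    exact hy hy'

theorem Code1_patch_other (O : Lang) (c n : ℕ) (A B : Finset (El c n)) (w : List Bool)
    (hA : ∀ y : El c n, w ≠ codeA c n y.1) (hB : ∀ y : El c n, w ≠ codeB c n y.1) :
    patch O c n A B w = O w := by
  unfold patch
  rw [if_neg (by rintro ⟨y, h⟩; exact hA y h), if_neg (by rintro ⟨y, h⟩; exact hB y h)]

theorem patch_clock {O : Lang} (hO : Clock O) (c n : ℕ) (A B : Finset (El c n)) :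
    Clock (patch O c n A B) := by
  intro c' n' y
  rw [Code1_patch_other O c n A B _ (fun _ => Code1_C_ne_A) (fun _ => Code1_C_ne_B)]
  exact hO c' n' y

theorem setA_patch (O : Lang) (c n : ℕ) (A B : Finset (El c n)) :
    setA (patch O c n A B) c n = A := by
  ext y
  unfold setA
  rw [Finset.mem_filter, Code1_patch_A]
  simp

theorem setB_patch (O : Lang) (c n : ℕ) (A B : Finset (El c n)) :
    setB (patch O c n A B) c n = B := by
  ext y
  unfold setB
  rw [Finset.mem_filter, Code1_patch_B]
  simp

theorem setA_patch_ne (O : Lang) (c n c' n' : ℕ) (h : (c', n') ≠ (c, n))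
    (A B : Finset (El c n)) : setA (patch O c n A B) c' n' = setA O c' n' := by
  ext y
  unfold setA
  rw [Finset.mem_filter, Finset.mem_filter, Code1_patch_other]
  · intro y' he
    obtain ⟨h1, h2, -⟩ := Code1_A_inj he
    exact h (by rw [h1, h2])
  · intro y' he
    exact Code1_B_ne_A he.symm

theorem setB_patch_ne (O : Lang) (c n c' n' : ℕ) (h : (c', n') ≠ (c, n))
    (A B : Finset (El c n)) : setB (patch O c n A B) c' n' = setB O c' n' := by
  ext y
  unfold setB
  rw [Finset.mem_filter, Finset.mem_filter, Code1_patch_other]
  · intro y' he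
    exact Code1_B_ne_A he
  · intro y' he
    obtain ⟨h1, h2, -⟩ := Code1_B_inj he
    exact h (by rw [h1, h2])

theorem patch_promise {O : Lang} (hO : Promise O) (c n : ℕ) (A B : Finset (El c n))
    (hd : Disjoint A B) (h : 8 * B.card ≤ A.card ∨ 8 * A.card ≤ B.card) :
    Promise (patch O c n A B) := by
  refine ⟨patch_clock hO.1 c n A B, ?_⟩
  intro c' n'
  by_cases he : (c', n') = (c, n)
  · rw [Prod.mk.injEq] at he
    obtain ⟨rfl, rfl⟩ := he
    rw [setA_patch, setB_patch]
    exact ⟨hd, h⟩
  · rw [setA_patch_ne O c n c' n' he, setB_patch_ne O c n c' n' he]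
    exact hO.2 c' n'

/-- All codes of `(c, n)` have length at least `n`. -/
theorem patch_short (O : Lang) (c n : ℕ) (A B : Finset (El c n)) (w : List Bool)
    (hw : w.length < n) : patch O c n A B w = O w := by
  apply Code1_patch_other
  · rintro y rfl
    unfold codeA base at hw
    simp only [List.length_cons, List.length_append, List.length_replicate] at hw
    omega
  · rintro y rfl
    unfold codeB base at hw
    simp only [List.length_cons, List.length_append, List.length_replicate] at hw
    omega

end BppPath
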