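import Mathlib
import Pool.Agent.BppPath.CodeDefs
import Pool.Agent.BppPath.Code1

/-!
Locality, existence and closedness of the promise.
-/

namespace BppPath

/-- Locality: a set `Z` of strings touches at most `|Z|` elements. -/
theorem patch_local (O : Lang) (c n : ℕ) (Z : Finset (List Bool)) :
    ∃ V : Finset (El c n), V.card ≤ Z.card ∧ ∀ A B A' B' : Finset (El c n),
      (∀ u ∈ V, (u ∈ A' ↔ u ∈ A) ∧ (u ∈ B' ↔ u ∈ B)) →
      ∀ z ∈ Z, patch O c n A' B' z = patch O c n A B z := by
  classical
  let f : List Bool → Finset (El c n) := fun z =>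
    Finset.univ.filter (fun y : El c n => z = codeA c n y.1 ∨ z = codeB c n y.1)
  have hf : ∀ z, (f z).card ≤ 1 := by
    intro z
    rw [Finset.card_le_one]
    intro a ha b hb
    simp only [f, Finset.mem_filter, Finset.mem_univ, true_and] at ha hb
    rcases ha with ha | ha <;> rcases hb with hb | hb
    · exact Subtype.ext (Code1_A_inj (ha.symm.trans hb)).2.2
    · exact absurd (hb.symm.trans ha) Code1_B_ne_A
    · exact absurd (ha.symm.trans hb) Code1_B_ne_A
    · exact Subtype.ext (Code1_B_inj (ha.symm.trans hb)).2.2
  refine ⟨Z.biUnion f, ?_, ?_⟩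
  · calc (Z.biUnion f).card ≤ ∑ z ∈ Z, (f z).card := Finset.card_biUnion_le
      _ ≤ ∑ _z ∈ Z, 1 := Finset.sum_le_sum (fun z _ => hf z)
      _ = Z.card := by simp
  · intro A B A' B' h z hz
    by_cases hA : ∃ y : El c n, z = codeA c n y.1
    · obtain ⟨y, rfl⟩ := hA
      have hy : y ∈ Z.biUnion f := by
        rw [Finset.mem_biUnion]
        refine ⟨_, hz, ?_⟩
        exact Finset.mem_filter.mpr ⟨Finset.mem_univ _, Or.inl rfl⟩
      rw [Code1_patch_A, Code1_patch_A]
      exact decide_eq_decide.mpr (h y hy).1
    · by_cases hB : ∃ y : El c n, z = codeB c n y.1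
      · obtain ⟨y, rfl⟩ := hB
        have hy : y ∈ Z.biUnion f := by
          rw [Finset.mem_biUnion]
          refine ⟨_, hz, ?_⟩
          exact Finset.mem_filter.mpr ⟨Finset.mem_univ _, Or.inr rfl⟩
        rw [Code1_patch_B, Code1_patch_B]
        exact decide_eq_decide.mpr (h y hy).2
      · have h1 : ∀ y : El c n, z ≠ codeA c n y.1 := fun y hy => hA ⟨y, hy⟩
        have h2 : ∀ y : El c n, z ≠ codeB c n y.1 := fun y hy => hB ⟨y, hy⟩
        rw [Code1_patch_other O c n _ _ z h1 h2, Code1_patch_other O c n _ _ z h1 h2]

/-- There is an oracle satisfying the promise (all sets empty). -/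
theorem exists_promise : ∃ O : Lang, Promise O := by
  classical
  let O : Lang := fun w => decide (∃ (c n : ℕ) (y : List Bool), w = codeC c n y ∧ ell c n ≤ y.length)
  refine ⟨O, ?_, ?_⟩
  · intro c n y
    simp only [O]
    apply decide_eq_decide.mpr
    constructor
    · rintro ⟨c', n', y', h, hl⟩
      unfold codeC at h
      simp only [List.cons.injEq, true_and] at h
      obtain ⟨rfl, rfl, rfl⟩ := base_inj h
      exact hl
    · intro h
      exact ⟨c, n, y, rfl, h⟩
  · intro c n
    have hA : setA O c n = ∅ := by
      unfold setA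
      rw [Finset.filter_eq_empty_iff]
      intro y _ h
      simp only [O, decide_eq_true_eq] at h
      obtain ⟨c', n', y', h, -⟩ := h
      exact Code1_C_ne_A h.symm
    have hB : setB O c n = ∅ := by
      unfold setB
      rw [Finset.filter_eq_empty_iff]
      intro y _ h
      simp only [O, decide_eq_true_eq] at h
      obtain ⟨c', n', y', h, -⟩ := h
      exact Code1_C_ne_B h.symm
    rw [hA, hB]
    simp

theorem Code2_lenA {c n : ℕ} (y : El c n) : (codeA c n y.1).length = ell c n + n + c + 4 := by
  have := y.2
  unfold codeA base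
  simp only [List.length_cons, List.length_append, List.length_replicate]
  omega

theorem Code2_lenB {c n : ℕ} (y : El c n) : (codeB c n y.1).length = ell c n + n + c + 4 := by
  have := y.2
  unfold codeB base
  simp only [List.length_cons, List.length_append, List.length_replicate]
  omega

theorem Code2_setA_congr {O O' : Lang} {c n : ℕ}
    (h : ∀ w : List Bool, w.length ≤ ell c n + n + c + 4 → O' w = O w) :
    setA O' c n = setA O c n := by
  unfold setA
  apply Finset.filter_congr
  intro y _
  rw [h _ (Code2_lenA y).le]

theorem Code2_setB_congr {O O' : Lang} {c n : ℕ}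
    (h : ∀ w : List Bool, w.length ≤ ell c n + n + c + 4 → O' w = O w) :
    setB O' c n = setB O c n := by
  unfold setB
  apply Finset.filter_congr
  intro y _
  rw [h _ (Code2_lenB y).le]

/-- The promise is a closed condition: instance `(c, n)` only depends on strings of length
`< n + c + ell c n + 10`, the clock condition at `y` on one string. -/
theorem promise_closed (O : Lang)
    (h : ∀ b : ℕ, ∃ O' : Lang, Promise O' ∧ ∀ w : List Bool, w.length < b → O' w = O w) :
    Promise O := by
  constructor
  · intro c n y
    obtain ⟨O', hP, hO⟩ := h ((codeC c n y).length + 1)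
    rw [← hO _ (by omega)]
    exact hP.1 c n y
  · intro c n
    obtain ⟨O', hP, hO⟩ := h (ell c n + n + c + 5)
    have h1 : ∀ w : List Bool, w.length ≤ ell c n + n + c + 4 → O' w = O w :=
      fun w hw => hO w (by omega)
    rw [← Code2_setA_congr h1, ← Code2_setB_congr h1]
    exact hP.2 c n

/-- `lang c O x` only depends on strings of length `≤ ell c |x| + |x| + c + 4`. -/
theorem lang_congr (c : ℕ) (O O' : Lang) (x : List Bool)
    (h : ∀ w : List Bool, w.length ≤ ell c x.length + x.length + c + 4 → O' w = O w) :
    lang c O' x = lang c O x := by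
  unfold lang
  rw [Code2_setA_congr h, Code2_setB_congr h]

end BppPath
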