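import Mathlib

/-!
The combinatorial core. `Ω` = permutations `π` of `U`; the instance with index sets `I`, `J` is
`(π I, π J)`.
-/

namespace BppPath

open Finset

variable {U : Type*} [Fintype U] [DecidableEq U]

/-- `G` is determined by the values of `π` on `S`. -/
def DetBy (S : Finset U) (G : Finset (Equiv.Perm U)) : Prop :=
  ∀ π ∈ G, ∀ σ : Equiv.Perm U, (∀ s ∈ S, σ s = π s) → σ ∈ G

/-- `o`-instances: `A` is nonempty and much larger than `B` (`o = true`), or conversely. -/
def Inst (o : Bool) (A B : Finset U) : Prop :=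
  if o then 1 ≤ A.card ∧ 8 * B.card ≤ A.card else 1 ≤ B.card ∧ 8 * A.card ≤ B.card

end BppPath
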