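import Mathlib
import Pool.Agent.BppPath.CoreDefs

/-!
Counting.
-/

namespace BppPath

open Finset

variable {U : Type*} [Fintype U] [DecidableEq U]

/-- Swapping trick: for `k ∉ S`, `π ↦ π * swap j k` is a bijection of `G` that does not change `Z π`. -/
theorem card_event_le (S : Finset U) (j : U) (hj : j ∉ S) (G : Finset (Equiv.Perm U))
    (hG : DetBy S G) (Z : Equiv.Perm U → Finset U)
    (hZ : ∀ π σ : Equiv.Perm U, (∀ s ∈ S, σ s = π s) → Z σ = Z π)
    (w : ℕ) (hw : ∀ π ∈ G, (Z π).card ≤ w) :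
    (G.filter (fun π : Equiv.Perm U => π j ∈ Z π)).card * (Fintype.card U - S.card) ≤ w * G.card := by
  have h1 : ∀ k ∈ Sᶜ, (G.filter (fun π : Equiv.Perm U => π k ∈ Z π)).card =
      (G.filter (fun π : Equiv.Perm U => π j ∈ Z π)).card := by
    intro k hk
    have hk' : k ∉ S := mem_compl.1 hk
    have hag : ∀ π : Equiv.Perm U, ∀ s ∈ S, (π * Equiv.swap j k) s = π s := by
      intro π s hs
      rw [Equiv.Perm.mul_apply, Equiv.swap_apply_of_ne_of_ne]
      · rintro rfl; exact hj hs
      · rintro rfl; exact hk' hs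
    refine card_bij' (fun π _ => π * Equiv.swap j k) (fun π _ => π * Equiv.swap j k) ?_ ?_ ?_ ?_
    · intro π hπ
      rw [mem_filter] at hπ ⊢
      refine ⟨hG π hπ.1 _ (hag π), ?_⟩
      rw [hZ π _ (hag π), Equiv.Perm.mul_apply, Equiv.swap_apply_left]
      exact hπ.2
    · intro π hπ
      rw [mem_filter] at hπ ⊢
      refine ⟨hG π hπ.1 _ (hag π), ?_⟩
      rw [hZ π _ (hag π), Equiv.Perm.mul_apply, Equiv.swap_apply_right]
      exact hπ.2
    · intro π _
      show π * Equiv.swap j k * Equiv.swap j k = π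
      rw [mul_assoc, Equiv.swap_mul_self, mul_one]
    · intro π _
      show π * Equiv.swap j k * Equiv.swap j k = π
      rw [mul_assoc, Equiv.swap_mul_self, mul_one]
  have h2 : (G.filter (fun π : Equiv.Perm U => π j ∈ Z π)).card * (Fintype.card U - S.card) =
      ∑ k ∈ Sᶜ, (G.filter (fun π : Equiv.Perm U => π k ∈ Z π)).card := by
    rw [sum_congr rfl h1, sum_const, card_compl, smul_eq_mul, mul_comm]
  rw [h2]
  calc ∑ k ∈ Sᶜ, (G.filter (fun π : Equiv.Perm U => π k ∈ Z π)).card
      = ∑ π ∈ G, ((Sᶜ).filter (fun k => π k ∈ Z π)).card := by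
        simp only [card_filter]
        rw [sum_comm]
    _ ≤ ∑ π ∈ G, (Z π).card := by
        apply sum_le_sum
        intro π _
        refine card_le_card_of_injOn π ?_ π.injective.injOn
        intro k hk
        exact (mem_filter.1 hk).2
    _ ≤ ∑ _π ∈ G, w := sum_le_sum hw
    _ = w * G.card := by rw [sum_const, smul_eq_mul, mul_comm]

end BppPath
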