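import Mathlib
import Pool.Agent.BppPath.CoreDefs
import Pool.Agent.BppPath.Core1

/-!
Tree bound and the shrinking step.
-/

namespace BppPath

open Finset

variable {U : Type*} [Fintype U] [DecidableEq U]

/-- Tree bound: induction on `r`. `r = 0` is `|F ∩ G| ≤ |G|`. Step `r → r + 1`: let
`Z π` be the set of `hloc` for `(π I₀, π J)` if `¬ acc (π I₀) (π J)`, `∅` otherwise (it depends only on
`π` on `I₀ ∪ J`). Split `F ∩ G` by `acc (π I₀) (π J)`: the first part has `≤ M` elements (`I' = I₀`).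
For `π` in the second part, `acc (π I) (π J)` holds and `¬ acc (π I₀) (π J)`, so some element of `Z π`
lies in `π I` but not in `π I₀`: there is `j ∈ I \ I₀` with `π j ∈ Z π`. Hence the second part is
covered by the `≤ K` sets `F ∩ G_j`, `G_j = {π ∈ G : π j ∈ Z π}`, `DetBy (insert j I₀ ∪ J) G_j`,
`|G_j| (N - K) ≤ w |G|` by `card_event_le`; use the induction hypothesis for `insert j I₀`, `G_j`.
Arithmetic: `1 + K (K ^ r - 1) ≤ K ^ (r + 1) - 1` as `K ≥ 2`. -/
theorem tree_bound (acc : Finset U → Finset U → Prop) [DecidableRel acc] (w : ℕ)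
    (hloc : ∀ A B, ¬ acc A B → ∃ Z : Finset U, Z.card ≤ w ∧
      ∀ A', (∀ u ∈ Z, (u ∈ A' ↔ u ∈ A)) → ¬ acc A' B)
    (I J : Finset U) (K : ℕ) (hK : I.card + J.card ≤ K) (hK2 : 2 ≤ K) (hIJ : Disjoint I J)
    (F : Finset (Equiv.Perm U)) (hF : ∀ π ∈ F, acc (I.image π) (J.image π)) (M : ℕ) :
    ∀ (r : ℕ) (I₀ : Finset U), I₀ ⊆ I → ∀ G : Finset (Equiv.Perm U), DetBy (I₀ ∪ J) G →
      (∀ I' : Finset U, I₀ ⊆ I' → I' ⊆ I → I'.card < I₀.card + r →
        (F.filter (fun π : Equiv.Perm U => acc (I'.image π) (J.image π))).card ≤ M) →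
      (F ∩ G).card * (Fintype.card U - K) ^ r ≤
        (K ^ r - 1) * M * (Fintype.card U - K) ^ r + (K * w) ^ r * G.card := by
  classical
  set P := Fintype.card U - K with hP
  -- the local certificates
  obtain ⟨Zf, hZf⟩ : ∃ Zf : Finset U → Finset U → Finset U, ∀ A B, (Zf A B).card ≤ w ∧
      (¬ acc A B → ∀ A', (∀ u ∈ Zf A B, (u ∈ A' ↔ u ∈ A)) → ¬ acc A' B) := by
    refine ⟨fun A B => if h : ¬ acc A B then (hloc A B h).choose else ∅, ?_⟩
    intro A B
    by_cases h : ¬ acc A B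
    · simp only [dif_pos h]
      exact ⟨(hloc A B h).choose_spec.1, fun _ => (hloc A B h).choose_spec.2⟩
    · simp only [dif_neg h]
      exact ⟨by simp, fun h' => absurd h' h⟩
  intro r
  induction r with
  | zero =>
    intro I₀ _ G _ _
    simp only [pow_zero, mul_one, one_mul, Nat.sub_self, zero_mul, zero_add]
    exact card_le_card inter_subset_right
  | succ r ih =>
    intro I₀ hI₀ G hG hM
    set Z : Equiv.Perm U → Finset U := fun π => Zf (I₀.image π) (J.image π) with hZ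
    have hZc : ∀ π ∈ G, (Z π).card ≤ w := fun π _ => (hZf _ _).1
    have himg : ∀ π σ : Equiv.Perm U, (∀ s ∈ I₀ ∪ J, σ s = π s) →
        I₀.image σ = I₀.image π ∧ J.image σ = J.image π := by
      intro π σ h
      exact ⟨image_congr (fun s hs => h s (mem_union_left _ hs)),
        image_congr (fun s hs => h s (mem_union_right _ hs))⟩
    have hZdet : ∀ π σ : Equiv.Perm U, (∀ s ∈ I₀ ∪ J, σ s = π s) → Z σ = Z π := by
      intro π σ h
      simp only [hZ]
      rw [(himg π σ h).1, (himg π σ h).2]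
    set Gj : U → Finset (Equiv.Perm U) := fun j => G.filter (fun π : Equiv.Perm U => π j ∈ Z π) with hGj
    -- each piece
    have hpiece : ∀ j ∈ I \ I₀, (F ∩ Gj j).card * P ^ (r + 1) ≤
        (K ^ r - 1) * M * P ^ (r + 1) + (K * w) ^ r * (w * G.card) := by
      intro j hj
      rw [mem_sdiff] at hj
      have hjS : j ∉ I₀ ∪ J := by
        rw [mem_union, not_or]
        exact ⟨hj.2, fun h => (disjoint_left.1 hIJ) hj.1 h⟩
      have h1 := card_event_le (I₀ ∪ J) j hjS G hG Z hZdet w hZc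
      have hcard : (I₀ ∪ J).card ≤ K := by
        refine (card_union_le _ _).trans ?_
        have := card_le_card hI₀
        omega
      have h2 : (Gj j).card * P ≤ w * G.card := by
        refine le_trans (Nat.mul_le_mul_left _ ?_) h1
        omega
      have hdet : DetBy (insert j I₀ ∪ J) (Gj j) := by
        intro π hπ σ hσ
        rw [hGj, mem_filter] at hπ ⊢
        have h3 : ∀ s ∈ I₀ ∪ J, σ s = π s := by
          intro s hs
          apply hσ
          rw [mem_union] at hs ⊢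
          rcases hs with hs | hs
          · exact Or.inl (mem_insert_of_mem hs)
          · exact Or.inr hs
        refine ⟨hG π hπ.1 σ h3, ?_⟩
        rw [hZdet π σ h3, hσ j (mem_union_left _ (mem_insert_self _ _))]
        exact hπ.2
      have hins : insert j I₀ ⊆ I := insert_subset hj.1 hI₀
      have hci : (insert j I₀).card = I₀.card + 1 := card_insert_of_notMem hj.2
      have h4 := ih (insert j I₀) hins (Gj j) hdet (by
        intro I' h5 h6 h7
        apply hM I' ((subset_insert _ _).trans h5) h6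
        omega)
      calc (F ∩ Gj j).card * P ^ (r + 1) = ((F ∩ Gj j).card * P ^ r) * P := by ring
        _ ≤ ((K ^ r - 1) * M * P ^ r + (K * w) ^ r * (Gj j).card) * P := Nat.mul_le_mul_right _ h4
        _ = (K ^ r - 1) * M * P ^ (r + 1) + (K * w) ^ r * ((Gj j).card * P) := by ring
        _ ≤ (K ^ r - 1) * M * P ^ (r + 1) + (K * w) ^ r * (w * G.card) :=
          Nat.add_le_add_left (Nat.mul_le_mul_left _ h2) _
    -- covering
    have hcover : F ∩ G ⊆ F.filter (fun π : Equiv.Perm U => acc (I₀.image π) (J.image π)) ∪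
        (I \ I₀).biUnion (fun j => F ∩ Gj j) := by
      intro π hπ
      rw [mem_inter] at hπ
      rw [mem_union]
      by_cases hacc : acc (I₀.image π) (J.image π)
      · exact Or.inl (mem_filter.2 ⟨hπ.1, hacc⟩)
      · right
        have h1 : ¬ ∀ u ∈ Z π, (u ∈ I.image π ↔ u ∈ I₀.image π) := by
          intro h
          exact (hZf _ _).2 hacc _ h (hF π hπ.1)
        push Not at h1
        obtain ⟨u, hu, h2⟩ := h1
        have h3 : u ∈ I.image π ∧ u ∉ I₀.image π := by
          rcases h2 with h2 | h2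
          · exact h2
          · exfalso
            obtain ⟨x, hx, rfl⟩ := mem_image.1 h2.2
            exact h2.1 (mem_image_of_mem _ (hI₀ hx))
        obtain ⟨j, hj, rfl⟩ := mem_image.1 h3.1
        have hj0 : j ∉ I₀ := fun h => h3.2 (mem_image_of_mem _ h)
        rw [mem_biUnion]
        exact ⟨j, mem_sdiff.2 ⟨hj, hj0⟩, mem_inter.2 ⟨hπ.1, mem_filter.2 ⟨hπ.2, hu⟩⟩⟩
    have hcount : (F ∩ G).card ≤ M + ∑ j ∈ I \ I₀, (F ∩ Gj j).card := by
      refine (card_le_card hcover).trans ((card_union_le _ _).trans ?_)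
      exact Nat.add_le_add (hM I₀ (Subset.refl _) hI₀ (by omega)) card_biUnion_le
    have hIc : (I \ I₀).card ≤ K := by
      have := card_le_card (sdiff_subset : I \ I₀ ⊆ I)
      omega
    have hsum : (∑ j ∈ I \ I₀, (F ∩ Gj j).card) * P ^ (r + 1) ≤
        K * ((K ^ r - 1) * M * P ^ (r + 1) + (K * w) ^ r * (w * G.card)) := by
      rw [sum_mul]
      refine (sum_le_sum hpiece).trans ?_
      rw [sum_const, smul_eq_mul]
      exact Nat.mul_le_mul_right _ hIc
    obtain ⟨a, ha⟩ : ∃ a, K ^ r = a + 1 := ⟨K ^ r - 1, by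
      have : 0 < K ^ r := pow_pos (by omega) r
      omega⟩
    have hK1 : K ^ (r + 1) - 1 = K * a + (K - 1) := by
      rw [pow_succ, ha]
      have : (a + 1) * K = K * a + K := by ring
      omega
    calc (F ∩ G).card * P ^ (r + 1)
        ≤ (M + ∑ j ∈ I \ I₀, (F ∩ Gj j).card) * P ^ (r + 1) := Nat.mul_le_mul_right _ hcount
      _ = M * P ^ (r + 1) + (∑ j ∈ I \ I₀, (F ∩ Gj j).card) * P ^ (r + 1) := by ring
      _ ≤ M * P ^ (r + 1) + K * ((K ^ r - 1) * M * P ^ (r + 1) + (K * w) ^ r * (w * G.card)) :=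
          Nat.add_le_add_left hsum _
      _ = (K * a + 1) * (M * P ^ (r + 1)) + (K * w) ^ (r + 1) * G.card := by
          rw [ha, Nat.add_sub_cancel]
          ring
      _ ≤ (K * a + (K - 1)) * (M * P ^ (r + 1)) + (K * w) ^ (r + 1) * G.card := by
          apply Nat.add_le_add_right
          apply Nat.mul_le_mul_right
          omega
      _ = (K ^ (r + 1) - 1) * M * P ^ (r + 1) + (K * w) ^ (r + 1) * G.card := by
          rw [hK1]
          ring

/-- The shrinking step. Suppose not; let `M` be the maximum of the cardinals of the filters over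
all `I'` (so `M 2 ^ (D + 1 + κ r) < |Ω|`). `tree_bound` with `G = univ`, `P := N - K ≥ K w 2 ^ h`, gives
`|F| P ^ r ≤ (K ^ r - 1) M P ^ r + (K w) ^ r |Ω|` and `(K w) ^ r 2 ^ (h r) ≤ P ^ r`, so
`|F| 2 ^ (h r) ≤ (K ^ r - 1) M 2 ^ (h r) + |Ω|`, and `|Ω| ≤ |F| 2 ^ D ≤ |F| 2 ^ (h r) / 2`; hence
`|F| ≤ 2 K ^ r M` and `|Ω| ≤ |F| 2 ^ D ≤ 2 ^ (D + 1 + κ r) M`, contradiction. -/
theorem shrink (acc : Finset U → Finset U → Prop) [DecidableRel acc] (w : ℕ)
    (hloc : ∀ A B, ¬ acc A B → ∃ Z : Finset U, Z.card ≤ w ∧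
      ∀ A', (∀ u ∈ Z, (u ∈ A' ↔ u ∈ A)) → ¬ acc A' B)
    (I J : Finset U) (K : ℕ) (hK : I.card + J.card ≤ K) (hK2 : 2 ≤ K) (hIJ : Disjoint I J)
    (F : Finset (Equiv.Perm U)) (hF : ∀ π ∈ F, acc (I.image π) (J.image π))
    (r κ h D : ℕ) (hκ : K ≤ 2 ^ κ) (hN : K + K * w * 2 ^ h ≤ Fintype.card U)
    (hNpos : K < Fintype.card U)
    (hD : D + 1 ≤ h * r) (hFD : Fintype.card (Equiv.Perm U) ≤ F.card * 2 ^ D)
    (I₀ : Finset U) (hI₀ : I₀ ⊆ I) :
    ∃ I' : Finset U, I₀ ⊆ I' ∧ I' ⊆ I ∧ I'.card < I₀.card + r ∧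
      Fintype.card (Equiv.Perm U) ≤
        (F.filter (fun π : Equiv.Perm U => acc (I'.image π) (J.image π))).card * 2 ^ (D + 1 + κ * r) := by
  classical
  by_contra hcon
  push Not at hcon
  set Om := Fintype.card (Equiv.Perm U) with hOm
  have hOm0 : 0 < Om := Fintype.card_pos
  set E := D + 1 + κ * r with hE
  have hE0 : 0 < 2 ^ E := pow_pos (by norm_num) E
  set M := (Om - 1) / 2 ^ E with hM
  have hM1 : M * 2 ^ E ≤ Om - 1 := Nat.div_mul_le_self _ _
  set P := Fintype.card U - K with hP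
  have hP0 : 0 < P := by omega
  have htree := tree_bound acc w hloc I J K hK hK2 hIJ F hF M r I₀ hI₀ univ
    (fun _ _ _ _ => mem_univ _) (by
      intro I' h1 h2 h3
      rw [hM, Nat.le_div_iff_mul_le hE0]
      have := hcon I' h1 h2 h3
      omega)
  rw [inter_univ, card_univ] at htree
  have hpow : (K * w) ^ r * 2 ^ (h * r) ≤ P ^ r := by
    rw [pow_mul, ← mul_pow]
    apply Nat.pow_le_pow_left
    omega
  have hPr : 0 < P ^ r := pow_pos hP0 r
  have h1 : F.card * 2 ^ (h * r) ≤ (K ^ r - 1) * M * 2 ^ (h * r) + Om := by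
    have h2 : P ^ r * (F.card * 2 ^ (h * r)) ≤ P ^ r * ((K ^ r - 1) * M * 2 ^ (h * r) + Om) := by
      calc P ^ r * (F.card * 2 ^ (h * r)) = (F.card * P ^ r) * 2 ^ (h * r) := by ring
        _ ≤ ((K ^ r - 1) * M * P ^ r + (K * w) ^ r * Om) * 2 ^ (h * r) := Nat.mul_le_mul_right _ htree
        _ = P ^ r * ((K ^ r - 1) * M * 2 ^ (h * r)) + ((K * w) ^ r * 2 ^ (h * r)) * Om := by ring
        _ ≤ P ^ r * ((K ^ r - 1) * M * 2 ^ (h * r)) + P ^ r * Om :=
          Nat.add_le_add_left (Nat.mul_le_mul_right _ hpow) _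
        _ = P ^ r * ((K ^ r - 1) * M * 2 ^ (h * r) + Om) := by ring
    exact Nat.le_of_mul_le_mul_left h2 hPr
  have h3 : 2 * Om ≤ F.card * 2 ^ (h * r) := by
    calc 2 * Om ≤ 2 * (F.card * 2 ^ D) := Nat.mul_le_mul_left _ hFD
      _ = F.card * 2 ^ (D + 1) := by ring
      _ ≤ F.card * 2 ^ (h * r) := Nat.mul_le_mul_left _ (Nat.pow_le_pow_right (by norm_num) hD)
  have h4 : F.card * 2 ^ (h * r) ≤ (2 * ((K ^ r - 1) * M)) * 2 ^ (h * r) := by
    have : (2 * ((K ^ r - 1) * M)) * 2 ^ (h * r) = 2 * ((K ^ r - 1) * M * 2 ^ (h * r)) := by ring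
    omega
  have h5 : F.card ≤ 2 * ((K ^ r - 1) * M) :=
    Nat.le_of_mul_le_mul_right h4 (pow_pos (by norm_num) _)
  have h6 : (K ^ r - 1) * M ≤ 2 ^ (κ * r) * M := by
    apply Nat.mul_le_mul_right
    refine (Nat.sub_le _ _).trans ?_
    rw [pow_mul]
    exact Nat.pow_le_pow_left hκ r
  have h7 : Om ≤ M * 2 ^ E := by
    calc Om ≤ F.card * 2 ^ D := hFD
      _ ≤ (2 * (2 ^ (κ * r) * M)) * 2 ^ D := Nat.mul_le_mul_right _ (h5.trans (Nat.mul_le_mul_left _ h6))
      _ = M * 2 ^ E := by rw [hE, pow_add, pow_add]; ring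
  omega

end BppPath
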