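import Mathlib
import Pool.Agent.BppPath.CoreDefs
import Pool.Agent.BppPath.Core2

/-!
The core theorem.
-/

namespace BppPath

open Finset

variable {U : Type*} [Fintype U] [DecidableEq U]

/-- Acceptance with big index set `A` and small index set `B`, orientation `o`. -/
private def accO {C : Type*} (acc : C → Finset U → Finset U → Prop) (o : Bool) (c : C)
    (A B : Finset U) : Prop :=
  if o then acc c A B else acc c B A

private theorem pigeon {C : Type*} [Fintype C] (d D : ℕ) (hC : Fintype.card C ≤ 2 ^ d)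
    (F : Finset (Equiv.Perm U)) (hF : Fintype.card (Equiv.Perm U) ≤ F.card * 2 ^ D)
    (f : Equiv.Perm U → C) : ∃ (c : C) (F' : Finset (Equiv.Perm U)), F' ⊆ F ∧
      (∀ π ∈ F', f π = c) ∧ Fintype.card (Equiv.Perm U) ≤ F'.card * 2 ^ (D + d) := by
  classical
  by_contra hne
  push Not at hne
  have h1 : ∀ c : C, (F.filter (fun π => f π = c)).card * 2 ^ (D + d) <
      Fintype.card (Equiv.Perm U) := fun c =>
    hne c (F.filter (fun π => f π = c)) (filter_subset _ _) (fun π hπ => (mem_filter.mp hπ).2)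
  have h2 : F.card = ∑ c : C, (F.filter (fun π => f π = c)).card :=
    card_eq_sum_card_fiberwise (fun π _ => mem_coe.mpr (mem_univ _))
  have hpos : 0 < Fintype.card (Equiv.Perm U) := Fintype.card_pos
  rcases isEmpty_or_nonempty C with hE | hNE
  · have : F.card = 0 := by
      rw [h2]
      exact Finset.sum_of_isEmpty _
    rw [this] at hF
    simp at hF
  · have h3 : ∑ c : C, (F.filter (fun π => f π = c)).card * 2 ^ (D + d) <
        ∑ _c : C, Fintype.card (Equiv.Perm U) :=
      sum_lt_sum_of_nonempty univ_nonempty (fun c _ => h1 c)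
    rw [← sum_mul, ← h2] at h3
    rw [sum_const, smul_eq_mul, card_univ] at h3
    have h4 : Fintype.card C * Fintype.card (Equiv.Perm U) ≤ 2 ^ d * (F.card * 2 ^ D) :=
      Nat.mul_le_mul hC hF
    have h5 : F.card * 2 ^ (D + d) = 2 ^ d * (F.card * 2 ^ D) := by
      rw [pow_add]; ring
    omega

/-- No certificate system with few levels is correct on all instances.
Let `r = d + 2`, `K = 9 * 16 ^ (m + 1) * r`. Prove by strong induction on `a`: there are no `o`, `c`, `F`,
`I`, `J`, `D` with `bit c = o`, at most `a` levels above `lev c`, `Disjoint I J`, `8 |J| ≤ |I|`,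
`|I| + |J| ≤ K`, `16 ^ (a + 1) * r ≤ |J|`, `|Ω| ≤ |F| 2 ^ D`, `D + (a + 1) (1 + κ r + d) ≤ h r` and
`acc c` on `(π I, π J)` (if `o = true`; on `(π J, π I)` if `o = false`) for all `π ∈ F`.
Step: choose `I₀ ⊆ I` with `|I₀| = |J| / 16 ≥ r`, apply `shrink`: `I'` with `|I₀| ≤ |I'| ≤ 2 |I₀|`, so
`8 |I'| ≤ |J|`: on `F' ⊆ F` the instance (big `J`, small `I'`) has answer `!o`; `hcor` gives `c'(π)` of
maximal level with `lev c ≤ lev c'`, and `lev c ≠ lev c'` because `bit c = o ≠ !o`. Pigeonhole over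
`c'` (cost `d`). Start: `|J| = 16 ^ (m + 1) r`, `|I| = 8 |J|`, pigeonhole over the certificate of
`hcor`, `D = d`, `a = m`. -/
theorem core {C Λ : Type*} [Fintype C] [Fintype Λ] [LinearOrder Λ]
    (lev : C → Λ) (bit : C → Bool) (acc : C → Finset U → Finset U → Prop)
    (w d m κ h : ℕ) (hw : 1 ≤ w) (hC : Fintype.card C ≤ 2 ^ d) (hΛ : Fintype.card Λ ≤ m)
    (hloc : ∀ c A B, ¬ acc c A B → ∃ Z : Finset U, Z.card ≤ w ∧
      ∀ A' B', (∀ u ∈ Z, (u ∈ A' ↔ u ∈ A) ∧ (u ∈ B' ↔ u ∈ B)) → ¬ acc c A' B')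
    (hcor : ∀ (A B : Finset U) (o : Bool), Disjoint A B → Inst o A B →
      ∃ c, acc c A B ∧ ∀ c', acc c' A B → lev c' ≤ lev c ∧ (lev c' = lev c → bit c' = o))
    (hκ : 9 * 16 ^ (m + 1) * (d + 2) ≤ 2 ^ κ)
    (hh : (m + 2) * (κ + 2) ≤ h)
    (hN : 9 * 16 ^ (m + 1) * (d + 2) + 9 * 16 ^ (m + 1) * (d + 2) * w * 2 ^ h
      ≤ Fintype.card U) : False := by
  classical
  set r := d + 2 with hr
  set K := 9 * 16 ^ (m + 1) * r with hK
  have hKpos : 2 ≤ K := by
    have : 1 ≤ 16 ^ (m + 1) := Nat.one_le_pow _ _ (by norm_num)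
    have h2 : 2 ≤ r := by omega
    calc 2 ≤ 9 * 1 * 2 := by norm_num
      _ ≤ 9 * 16 ^ (m + 1) * r := Nat.mul_le_mul (Nat.mul_le_mul_left 9 this) h2
  have hKlt : K < Fintype.card U := by
    have : 1 ≤ K * w * 2 ^ h := Nat.mul_pos (Nat.mul_pos (by omega) hw) (by positivity)
    omega
  -- choice of a maximal certificate on a promise instance, by pigeonhole
  have pick : ∀ (o : Bool) (F : Finset (Equiv.Perm U)) (A B : Finset U) (D : ℕ),
      Disjoint A B → 1 ≤ A.card → 8 * B.card ≤ A.card →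
      Fintype.card (Equiv.Perm U) ≤ F.card * 2 ^ D →
      ∃ (c₁ : C) (F₁ : Finset (Equiv.Perm U)), F₁ ⊆ F ∧ F₁.Nonempty ∧ bit c₁ = o ∧
        Fintype.card (Equiv.Perm U) ≤ F₁.card * 2 ^ (D + d) ∧
        (∀ π ∈ F₁, accO acc o c₁ (A.image π) (B.image π)) ∧
        (∀ π ∈ F₁, ∀ c' : C, accO acc o c' (A.image π) (B.image π) →
          lev c' ≤ lev c₁ ∧ (lev c' = lev c₁ → bit c' = o)) := by
    intro o F A B D hAB hA hBA hF
    have hex : ∀ π : Equiv.Perm U, ∃ c : C, accO acc o c (A.image π) (B.image π) ∧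
        ∀ c' : C, accO acc o c' (A.image π) (B.image π) →
          lev c' ≤ lev c ∧ (lev c' = lev c → bit c' = o) := by
      intro π
      have hcA : (A.image π).card = A.card := card_image_of_injective _ π.injective
      have hcB : (B.image π).card = B.card := card_image_of_injective _ π.injective
      have hdis : Disjoint (A.image π) (B.image π) :=
        (disjoint_image π.injective).mpr hAB
      cases o with
      | true =>
        obtain ⟨c, h1, h2⟩ := hcor (A.image π) (B.image π) true hdis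
          (by simp only [Inst, if_true]; rw [hcA, hcB]; exact ⟨hA, hBA⟩)
        exact ⟨c, by simpa [accO] using h1, fun c' hc' => h2 c' (by simpa [accO] using hc')⟩
      | false =>
        obtain ⟨c, h1, h2⟩ := hcor (B.image π) (A.image π) false hdis.symm
          (by simp only [Inst]; rw [hcA, hcB]; exact ⟨hA, hBA⟩)
        exact ⟨c, by simpa [accO] using h1, fun c' hc' => h2 c' (by simpa [accO] using hc')⟩
    choose f hf1 hf2 using hex
    obtain ⟨c₁, F₁, hsub, hfc, hcard⟩ := pigeon d D hC F hF f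
    have hne : F₁.Nonempty := by
      rw [nonempty_iff_ne_empty]
      rintro rfl
      have : 0 < Fintype.card (Equiv.Perm U) := Fintype.card_pos
      simp at hcard
    refine ⟨c₁, F₁, hsub, hne, ?_, hcard, ?_, ?_⟩
    · obtain ⟨π, hπ⟩ := hne
      have h1 := hf1 π
      have h2 := (hf2 π (f π) h1).2 rfl
      rw [← hfc π hπ]; exact h2
    · intro π hπ
      have h1 := hf1 π
      rwa [hfc π hπ] at h1
    · intro π hπ c' hc'
      have h2 := hf2 π c' hc'
      rwa [hfc π hπ] at h2
  have step : ∀ (a : ℕ) (o : Bool) (c : C) (F : Finset (Equiv.Perm U)) (I J : Finset U) (D : ℕ),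
      bit c = o → Disjoint I J →
      8 * J.card ≤ I.card → I.card + J.card ≤ K → 16 ^ (a + 1) * r ≤ J.card →
      Fintype.card (Equiv.Perm U) ≤ F.card * 2 ^ D →
      D + (a + 1) * (1 + κ * r + d) ≤ h * r →
      (∀ π ∈ F, accO acc o c (I.image π) (J.image π)) →
      ∃ (c₁ : C) (F₁ : Finset (Equiv.Perm U)) (I' : Finset U), I' ⊆ I ∧ bit c₁ = !o ∧
        lev c < lev c₁ ∧ 8 * I'.card ≤ J.card ∧ J.card / 16 ≤ I'.card ∧
        Fintype.card (Equiv.Perm U) ≤ F₁.card * 2 ^ (D + 1 + κ * r + d) ∧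
        (∀ π ∈ F₁, accO acc (!o) c₁ (J.image π) (I'.image π)) := by
    intro a o c F I J D hbit hIJ hJI hIJK hJ hF hD hacc
    have h16 : 1 ≤ 16 ^ a := Nat.one_le_pow _ _ (by norm_num)
    have hJ16 : 16 * (16 ^ a * r) ≤ J.card := by
      calc 16 * (16 ^ a * r) = 16 ^ (a + 1) * r := by ring
        _ ≤ J.card := hJ
    have hra : r ≤ 16 ^ a * r := Nat.le_mul_of_pos_left r h16
    obtain ⟨I₀, hI₀I, hI₀c⟩ := exists_subset_card_eq (s := I) (n := J.card / 16) (by omega)
    have hloc' : ∀ A B, ¬ accO acc o c A B → ∃ Z : Finset U, Z.card ≤ w ∧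
        ∀ A', (∀ u ∈ Z, (u ∈ A' ↔ u ∈ A)) → ¬ accO acc o c A' B := by
      intro A B hAB
      cases o with
      | true =>
        obtain ⟨Z, hZ, hZ'⟩ := hloc c A B (by simpa [accO] using hAB)
        exact ⟨Z, hZ, fun A' hA' => by
          simpa [accO] using hZ' A' B (fun u hu => ⟨hA' u hu, Iff.rfl⟩)⟩
      | false =>
        obtain ⟨Z, hZ, hZ'⟩ := hloc c B A (by simpa [accO] using hAB)
        exact ⟨Z, hZ, fun A' hA' => by
          simpa [accO] using hZ' B A' (fun u hu => ⟨Iff.rfl, hA' u hu⟩)⟩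
    have hD1 : D + 1 ≤ h * r := by
      have : 1 ≤ (a + 1) * (1 + κ * r + d) := Nat.mul_pos (by omega) (by omega)
      omega
    obtain ⟨I', hI₀I', hI'I, hI'c, hcard⟩ := shrink (accO acc o c) w hloc' I J K hIJK hKpos hIJ F
      hacc r κ h D hκ hN hKlt hD1 hF I₀ hI₀I
    set F' := F.filter (fun π : Equiv.Perm U => accO acc o c (I'.image π) (J.image π)) with hF'
    have hI'ge : J.card / 16 ≤ I'.card := hI₀c ▸ card_le_card hI₀I'
    have hI'le : 8 * I'.card ≤ J.card := by
      have : r ≤ J.card / 16 := by omega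
      omega
    obtain ⟨c₁, F₁, hsub, ⟨π, hπ⟩, hb₁, hcard₁, hacc₁, hmax⟩ := pick (!o) F' J I' (D + 1 + κ * r)
      (hIJ.symm.mono_right hI'I) (by omega) hI'le hcard
    refine ⟨c₁, F₁, I', hI'I, hb₁, ?_, hI'le, hI'ge, hcard₁, hacc₁⟩
    have hcπ : accO acc (!o) c (J.image π) (I'.image π) := by
      have := (mem_filter.mp (hsub hπ)).2
      cases o <;> simpa [accO] using this
    obtain ⟨h1, h2⟩ := hmax π hπ c hcπ
    refine lt_of_le_of_ne h1 (fun he => ?_)
    have h3 := h2 he
    rw [hbit] at h3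
    cases o <;> simp at h3
  have key : ∀ a : ℕ, ∀ (o : Bool) (c : C) (F : Finset (Equiv.Perm U)) (I J : Finset U) (D : ℕ),
      bit c = o → (univ.filter (fun l : Λ => lev c < l)).card ≤ a → Disjoint I J →
      8 * J.card ≤ I.card → I.card + J.card ≤ K → 16 ^ (a + 1) * r ≤ J.card →
      Fintype.card (Equiv.Perm U) ≤ F.card * 2 ^ D →
      D + (a + 1) * (1 + κ * r + d) ≤ h * r →
      (∀ π ∈ F, accO acc o c (I.image π) (J.image π)) → False := by
    intro a
    induction a with
    | zero =>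
      intro o c F I J D hbit hlev hIJ hJI hIJK hJ hF hD hacc
      obtain ⟨c₁, F₁, I', -, -, hlt, -⟩ := step 0 o c F I J D hbit hIJ hJI hIJK hJ hF hD hacc
      have : lev c₁ ∈ univ.filter (fun l : Λ => lev c < l) := by simpa using hlt
      have := card_pos.mpr ⟨_, this⟩
      omega
    | succ a ih =>
      intro o c F I J D hbit hlev hIJ hJI hIJK hJ hF hD hacc
      obtain ⟨c₁, F₁, I', hI'I, hb₁, hlt, h8, h16, hF₁, hacc₁⟩ :=
        step (a + 1) o c F I J D hbit hIJ hJI hIJK hJ hF hD hacc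
      refine ih (!o) c₁ F₁ J I' (D + 1 + κ * r + d) hb₁ ?_ (hIJ.symm.mono_right hI'I) h8 ?_ ?_ hF₁
        ?_ hacc₁
      · have hss : univ.filter (fun l : Λ => lev c₁ < l) ⊂ univ.filter (fun l : Λ => lev c < l) := by
          rw [ssubset_iff_of_subset]
          · exact ⟨lev c₁, by simpa using hlt, by simp⟩
          · intro l hl
            simp only [mem_filter, mem_univ, true_and] at hl ⊢
            exact hlt.trans hl
        have := card_lt_card hss
        omega
      · have := card_le_card hI'I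
        omega
      · have : 16 * (16 ^ (a + 1) * r) ≤ J.card := by
          calc 16 * (16 ^ (a + 1) * r) = 16 ^ (a + 1 + 1) * r := by ring
            _ ≤ J.card := hJ
        omega
      · have : (a + 1 + 1) * (1 + κ * r + d) = (a + 1) * (1 + κ * r + d) + (1 + κ * r + d) := by
          ring
        omega
  -- the start
  have hJcard : 16 ^ (m + 1) * r + 8 * (16 ^ (m + 1) * r) = K := by rw [hK]; ring
  obtain ⟨J, -, hJc⟩ := exists_subset_card_eq (s := (univ : Finset U)) (n := 16 ^ (m + 1) * r)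
    (by rw [card_univ]; omega)
  obtain ⟨I, hIJ, hIc⟩ := exists_subset_card_eq (s := (univ \ J : Finset U))
    (n := 8 * (16 ^ (m + 1) * r)) (by
      rw [card_sdiff_of_subset (subset_univ _), card_univ]; omega)
  have hdis : Disjoint I J := by
    rw [disjoint_left]
    intro u hu
    exact (mem_sdiff.mp (hIJ hu)).2
  have hpos : 1 ≤ 16 ^ (m + 1) * r := Nat.mul_pos (by positivity) (by omega)
  obtain ⟨c₁, F₁, -, -, hb₁, hcard₁, hacc₁, -⟩ := pick true univ I J 0 hdis (by omega) (by omega)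
    (by simp)
  refine key m true c₁ F₁ I J (0 + d) hb₁ ?_ hdis (by omega) (by omega) (by omega) hcard₁ ?_ hacc₁
  · calc (univ.filter (fun l : Λ => lev c₁ < l)).card ≤ (univ : Finset Λ).card :=
        card_le_card (filter_subset _ _)
      _ ≤ m := by rw [card_univ]; exact hΛ
  · calc 0 + d + (m + 1) * (1 + κ * r + d) ≤ (m + 2) * (κ + 2) * r := by
          rw [hr]; nlinarith [Nat.zero_le (m * κ * d), Nat.zero_le (m * κ), Nat.zero_le (m * d),
            Nat.zero_le (κ * d)]
      _ ≤ h * r := Nat.mul_le_mul_right r hh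

end BppPath
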