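import Mathlib
import Pool.Agent.BppPath.CodeDefs
import Pool.Agent.BppPath.PathDefs

/-!
The requirements.
-/

namespace BppPath

/-- A requirement: `(c, k, P, N, kN, M, kM)`. -/
abbrev Rq := ℕ × ℕ × Prog × Prog × ℕ × Prog × ℕ

/-- The requirement says that the machine does not decide `lang c O`. -/
def Req (e : Rq) (O : Lang) : Prop :=
  ¬ Decides e.2.2.1 O (npLang e.2.2.2.1 e.2.2.2.2.1 (npLang e.2.2.2.2.2.1 e.2.2.2.2.2.2 O))
    (fun n => e.2.1 * 2 ^ (n ^ e.1) + e.2.1) (fun n => e.1 * Nat.log 2 n + e.1) (lang e.1 O)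

end BppPath
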