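import Mathlib
import Pool.Agent.BppPath.StageDefs

/-!
The limit construction.
-/

namespace BppPath

/-- The limit construction. -/
theorem limit (R : ℕ → Lang → Prop) (Pr : Lang → Prop)
    (hcl : ∀ O : Lang, (∀ b : ℕ, ∃ O' : Lang, Pr O' ∧ ∀ w : List Bool, w.length < b →
      O' w = O w) → Pr O)
    (h0 : ∃ O : Lang, Pr O)
    (hst : ∀ (e : ℕ) (O : Lang) (b : ℕ), Pr O → ∃ (O' : Lang) (b' : ℕ), b ≤ b' ∧
      (∀ w : List Bool, w.length < b → O' w = O w) ∧ Pr O' ∧
      ∀ O'' : Lang, (∀ w : List Bool, w.length < b' → O'' w = O' w) → R e O'') :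
    ∃ O : Lang, Pr O ∧ ∀ e, R e O := by
  classical
  -- states: an oracle with the promise and a bound
  let S := {p : Lang × ℕ // Pr p.1}
  choose f g hf1 hf2 hf3 hf4 using hst
  obtain ⟨O₀, hO₀⟩ := h0
  let nxt : ℕ → S → S := fun e p =>
    ⟨(f e p.1.1 (max p.1.2 e) p.2, g e p.1.1 (max p.1.2 e) p.2), hf3 e p.1.1 _ p.2⟩
  let st : ℕ → S := fun e => Nat.rec ⟨(O₀, 0), hO₀⟩ (fun e p => nxt e p) e
  have hst_succ : ∀ e, st (e + 1) = nxt e (st e) := fun e => rfl
  let Oc : ℕ → Lang := fun e => (st e).1.1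
  let bc : ℕ → ℕ := fun e => (st e).1.2
  have hb1 : ∀ e, max (bc e) e ≤ bc (e + 1) := fun e => hf1 e (Oc e) _ (st e).2
  have hagree1 : ∀ e (w : List Bool), w.length < bc e → Oc (e + 1) w = Oc e w := fun e w hw =>
    hf2 e (Oc e) _ (st e).2 w (lt_of_lt_of_le hw (le_max_left _ _))
  have hbmono : Monotone bc := monotone_nat_of_le_succ (fun e => (le_max_left _ _).trans (hb1 e))
  have hagree : ∀ e k (w : List Bool), w.length < bc e → Oc (e + k) w = Oc e w := by
    intro e k
    induction k with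
    | zero => intro w _; rfl
    | succ k ih =>
      intro w hw
      rw [← add_assoc, hagree1 (e + k) w (lt_of_lt_of_le hw (hbmono (by omega))), ih w hw]
  have hbge : ∀ e, e ≤ bc (e + 1) := fun e => (le_max_right _ _).trans (hb1 e)
  let O : Lang := fun w => Oc (w.length + 2) w
  have hO : ∀ e (w : List Bool), w.length < bc e → O w = Oc e w := by
    intro e w hw
    show Oc (w.length + 2) w = Oc e w
    have h1 : w.length < bc (w.length + 2) := lt_of_lt_of_le (Nat.lt_succ_self _) (hbge (w.length + 1))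
    rcases le_total e (w.length + 2) with h | h
    · obtain ⟨k, hk⟩ := Nat.exists_eq_add_of_le h
      rw [hk]
      exact hagree e k w hw
    · obtain ⟨k, hk⟩ := Nat.exists_eq_add_of_le h
      rw [hk]
      exact (hagree (w.length + 2) k w h1).symm
  refine ⟨O, hcl O (fun b => ⟨Oc (b + 1), (st (b + 1)).2, fun w hw => ?_⟩), fun e => ?_⟩
  · exact (hO (b + 1) w (lt_of_lt_of_le hw (hbge b))).symm
  · exact hf4 e (Oc e) _ (st e).2 O (fun w hw => hO (e + 1) w hw)

end BppPath
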