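import Mathlib
import Pool.Agent.BppPath.CodeDefs

/-!
The `BPP_path` machine for `lang c O`.
-/

namespace BppPath

/-- The machine. States `0..c-1` write `c` ones on stack 1, then a zero, a one for every input
symbol and a zero: stack 1 contains `base c n`. Loop at `c+4`: push the clock tag, ask the oracle
whether the guessed string is long enough; if not, remove the tag and guess another bit. Then
the `A`-query is obtained by pushing `1` (`true :: false :: W`), the `B`-query is `true :: true :: W`.
If `y ∈ A` (resp. `y ∈ B`), pop the stack, branching twice for every symbol, and accept (resp.
reject); otherwise reject. -/
def mach (c : ℕ) : Prog :=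
  (List.range c).map (fun i => Instr.push 1 true (i + 1)) ++
  [ .push 1 false (c + 1),                       -- c
    .pop 0 (c + 3) (c + 2) (c + 2),              -- c+1
    .push 1 true (c + 1),                        -- c+2
    .push 1 false (c + 4),                       -- c+3
    .push 1 false (c + 5),                       -- c+4   clock tag
    .ask true 1 (c + 6) (c + 10),                -- c+5
    .pop 1 (c + 7) (c + 7) (c + 7),              -- c+6
    .guess (c + 8) (c + 9),                      -- c+7
    .push 1 false (c + 4),                       -- c+8
    .push 1 true (c + 4),                        -- c+9
    .push 1 true (c + 11),                       -- c+10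
    .ask true 1 (c + 12) (c + 20),               -- c+11  A query
    .pop 1 (c + 13) (c + 13) (c + 13),           -- c+12
    .pop 1 (c + 14) (c + 14) (c + 14),           -- c+13
    .push 1 true (c + 15),                       -- c+14
    .push 1 true (c + 16),                       -- c+15
    .ask true 1 (c + 17) (c + 18),               -- c+16  B query
    .reject,                                     -- c+17
    .pop 1 (c + 17) (c + 19) (c + 19),           -- c+18
    .guess (c + 18) (c + 18),                    -- c+19
    .pop 1 (c + 22) (c + 21) (c + 21),           -- c+20
    .guess (c + 20) (c + 20),                    -- c+21
    .accept ]                                    -- c+22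

/-- Contribution of a guessed string `w = y ++ base c n`. -/
def fin1 (O : Lang) (w : List Bool) : ℕ × ℕ :=
  if O (true :: false :: w) then (2 ^ (w.length + 2), 0)
  else if O (true :: true :: w) then (0, 2 ^ (w.length + 2)) else (0, 1)

/-- All lists of length `m` (new symbol at the end). -/
def lists : ℕ → Finset (List Bool)
  | 0 => {[]}
  | m + 1 => (lists m).image (fun z => z ++ [false]) ∪ (lists m).image (fun z => z ++ [true])

end BppPath
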