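import Mathlib
import Pool.Agent.BppPath.MachDefs

/-!
Loops after the guess.
-/

namespace BppPath

/-- The instructions of `mach c` from state `c` on. -/
def Mach1_tl (c : ℕ) : Prog :=
  [ .push 1 false (c + 1),                       -- c
    .pop 0 (c + 3) (c + 2) (c + 2),              -- c+1
    .push 1 true (c + 1),                        -- c+2
    .push 1 false (c + 4),                       -- c+3
    .push 1 false (c + 5),                       -- c+4   clock tag
    .ask true 1 (c + 6) (c + 10),                -- c+5
    .pop 1 (c + 7) (c + 7) (c + 7),              -- c+6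
    .guess (c + 8) (c + 9),                      -- c+7
    .push 1 false (c + 4),                       -- c+8
    .push 1 true (c + 4),                        -- c+9
    .push 1 true (c + 11),                       -- c+10
    .ask true 1 (c + 12) (c + 20),               -- c+11  A query
    .pop 1 (c + 13) (c + 13) (c + 13),           -- c+12
    .pop 1 (c + 14) (c + 14) (c + 14),           -- c+13
    .push 1 true (c + 15),                       -- c+14
    .push 1 true (c + 16),                       -- c+15
    .ask true 1 (c + 17) (c + 18),               -- c+16  B query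
    .reject,                                     -- c+17
    .pop 1 (c + 17) (c + 19) (c + 19),           -- c+18
    .guess (c + 18) (c + 18),                    -- c+19
    .pop 1 (c + 22) (c + 21) (c + 21),           -- c+20
    .guess (c + 20) (c + 20),                    -- c+21
    .accept ]                                    -- c+22

theorem Mach1_mach_eq (c : ℕ) :
    mach c = (List.range c).map (fun i => Instr.push 1 true (i + 1)) ++ Mach1_tl c := rfl

theorem Mach1_get (c k : ℕ) : (mach c)[c + k]? = (Mach1_tl c)[k]? := by
  rw [Mach1_mach_eq, List.getElem?_append_right (by simp)]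
  simp

/-- More fuel does not change the count. -/
theorem count_mono (P : Prog) (ans : Bool → Lang) (t t' : ℕ) (h : t ≤ t') (c : Cfg)
    (p : ℕ × ℕ) (hc : count P ans t c = some p) : count P ans t' c = some p := by
  induction t generalizing t' c p with
  | zero => simp [count] at hc
  | succ t ih =>
    obtain ⟨s, rfl⟩ : ∃ s, t' = s + 1 := ⟨t' - 1, by omega⟩
    have hs : t ≤ s := by omega
    rw [count] at hc ⊢
    rcases hst : step P ans c with b | c' | ⟨c₁, c₂⟩
    · cases b <;> simp_all
    · simp only [hst] at hc ⊢
      exact ih s hs c' p hc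
    · simp only [hst] at hc ⊢
      rcases h1 : count P ans t c₁ with _ | p1
      · simp [h1] at hc
      · rcases h2 : count P ans t c₂ with _ | p2
        · simp [h1, h2] at hc
        · rw [h1, h2] at hc
          rw [ih s hs c₁ p1 h1, ih s hs c₂ p2 h2]
          exact hc

/-- One deterministic step. -/
theorem Mach1_count_cont {P : Prog} {ans : Bool → Lang} {c c' : Cfg} (t : ℕ)
    (h : step P ans c = .cont c') : count P ans (t + 1) c = count P ans t c' := by
  rw [count, h]

theorem Mach1_count_halt_true {P : Prog} {ans : Bool → Lang} {c : Cfg} (t : ℕ)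
    (h : step P ans c = .halt true) : count P ans (t + 1) c = some (1, 0) := by
  rw [count, h]

theorem Mach1_count_halt_false {P : Prog} {ans : Bool → Lang} {c : Cfg} (t : ℕ)
    (h : step P ans c = .halt false) : count P ans (t + 1) c = some (0, 1) := by
  rw [count, h]

theorem Mach1_count_fork {P : Prog} {ans : Bool → Lang} {c c₁ c₂ : Cfg} (t : ℕ) {p q : ℕ × ℕ}
    (h : step P ans c = .fork c₁ c₂) (h1 : count P ans t c₁ = some p)
    (h2 : count P ans t c₂ = some q) :
    count P ans (t + 1) c = some (p.1 + q.1, p.2 + q.2) := by
  rw [count, h]
  simp only [h1, h2]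

/-- Accepting loop: `2 ^ |s|` accepting paths. Induction on the stack. -/
theorem loopA (c : ℕ) (ans : Bool → Lang) (st : ℕ → List Bool) :
    count (mach c) ans (2 * (st 1).length + 2) ⟨c + 20, st⟩ =
      some (2 ^ (st 1).length, 0) := by
  obtain ⟨l, hl⟩ : ∃ l, st 1 = l := ⟨_, rfl⟩
  rw [hl]
  induction l generalizing st with
  | nil =>
    rw [show 2 * ([] : List Bool).length + 2 = 1 + 1 from rfl]
    rw [Mach1_count_cont (c' := ⟨c + 22, st⟩) 1 (by simp [step, Mach1_get, Mach1_tl, hl])]
    rw [show (1 : ℕ) = 0 + 1 from rfl, Mach1_count_halt_true 0 (by simp [step, Mach1_get, Mach1_tl])]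
    simp
  | cons b l ih =>
    have e : 2 * (b :: l).length + 2 = (2 * l.length + 2) + 1 + 1 := by
      simp only [List.length_cons]; omega
    rw [e]
    have hs : step (mach c) ans ⟨c + 20, st⟩ = .cont ⟨c + 21, Function.update st 1 l⟩ := by
      cases b <;> simp [step, Mach1_get, Mach1_tl, hl]
    rw [Mach1_count_cont _ hs]
    have hf : step (mach c) ans ⟨c + 21, Function.update st 1 l⟩ =
        .fork ⟨c + 20, Function.update st 1 l⟩ ⟨c + 20, Function.update st 1 l⟩ := by
      simp [step, Mach1_get, Mach1_tl]
    have hi := ih (Function.update st 1 l) (by simp)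
    rw [Mach1_count_fork _ hf hi hi]
    simp only [List.length_cons, pow_succ, add_zero]
    congr 2
    ring

/-- Rejecting loop. -/
theorem loopB (c : ℕ) (ans : Bool → Lang) (st : ℕ → List Bool) :
    count (mach c) ans (2 * (st 1).length + 2) ⟨c + 18, st⟩ =
      some (0, 2 ^ (st 1).length) := by
  obtain ⟨l, hl⟩ : ∃ l, st 1 = l := ⟨_, rfl⟩
  rw [hl]
  induction l generalizing st with
  | nil =>
    rw [show 2 * ([] : List Bool).length + 2 = 1 + 1 from rfl]
    rw [Mach1_count_cont (c' := ⟨c + 17, st⟩) 1 (by simp [step, Mach1_get, Mach1_tl, hl])]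
    rw [show (1 : ℕ) = 0 + 1 from rfl, Mach1_count_halt_false 0 (by simp [step, Mach1_get, Mach1_tl])]
    simp
  | cons b l ih =>
    have e : 2 * (b :: l).length + 2 = (2 * l.length + 2) + 1 + 1 := by
      simp only [List.length_cons]; omega
    rw [e]
    have hs : step (mach c) ans ⟨c + 18, st⟩ = .cont ⟨c + 19, Function.update st 1 l⟩ := by
      cases b <;> simp [step, Mach1_get, Mach1_tl, hl]
    rw [Mach1_count_cont _ hs]
    have hf : step (mach c) ans ⟨c + 19, Function.update st 1 l⟩ =
        .fork ⟨c + 18, Function.update st 1 l⟩ ⟨c + 18, Function.update st 1 l⟩ := by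
      simp [step, Mach1_get, Mach1_tl]
    have hi := ih (Function.update st 1 l) (by simp)
    rw [Mach1_count_fork _ hf hi hi]
    simp only [List.length_cons, pow_succ, add_zero]
    congr 2
    ring

/-- From state `c+10` (stack 1 = `false :: w`). -/
theorem tail (c : ℕ) (O : Lang) (st : ℕ → List Bool) (w : List Bool) (h : st 1 = false :: w) :
    count (mach c) (single O) (2 * w.length + 14) ⟨c + 10, st⟩ = some (fin1 O w) := by
  rw [show 2 * w.length + 14 = (2 * w.length + 13) + 1 from rfl]
  rw [Mach1_count_cont (c' := ⟨c + 11, Function.update st 1 (true :: false :: w)⟩) _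
    (by simp [step, Mach1_get, Mach1_tl, h])]
  rw [show 2 * w.length + 13 = (2 * w.length + 12) + 1 from rfl]
  by_cases hA : O (true :: false :: w) = true
  · rw [Mach1_count_cont (c' := ⟨c + 20, Function.update st 1 (true :: false :: w)⟩) _
      (by simp [step, Mach1_get, Mach1_tl, single, pair, hA])]
    have := loopA c (single O) (Function.update st 1 (true :: false :: w))
    rw [Function.update_self] at this
    rw [count_mono _ _ _ (2 * w.length + 12) (by simp only [List.length_cons]; omega) _ _ this]
    simp [fin1, hA]
  · have hA' : O (true :: false :: w) = false := by simpa using hA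
    rw [Mach1_count_cont (c' := ⟨c + 12, Function.update st 1 (true :: false :: w)⟩) _
      (by simp [step, Mach1_get, Mach1_tl, single, pair, hA'])]
    rw [show 2 * w.length + 12 = (2 * w.length + 11) + 1 from rfl]
    rw [Mach1_count_cont (c' := ⟨c + 13, Function.update st 1 (false :: w)⟩) _
      (by simp [step, Mach1_get, Mach1_tl])]
    rw [show 2 * w.length + 11 = (2 * w.length + 10) + 1 from rfl]
    rw [Mach1_count_cont (c' := ⟨c + 14, Function.update st 1 w⟩) _
      (by simp [step, Mach1_get, Mach1_tl])]
    rw [show 2 * w.length + 10 = (2 * w.length + 9) + 1 from rfl]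
    rw [Mach1_count_cont (c' := ⟨c + 15, Function.update st 1 (true :: w)⟩) _
      (by simp [step, Mach1_get, Mach1_tl])]
    rw [show 2 * w.length + 9 = (2 * w.length + 8) + 1 from rfl]
    rw [Mach1_count_cont (c' := ⟨c + 16, Function.update st 1 (true :: true :: w)⟩) _
      (by simp [step, Mach1_get, Mach1_tl])]
    rw [show 2 * w.length + 8 = (2 * w.length + 7) + 1 from rfl]
    by_cases hB : O (true :: true :: w) = true
    · rw [Mach1_count_cont (c' := ⟨c + 18, Function.update st 1 (true :: true :: w)⟩) _
        (by simp [step, Mach1_get, Mach1_tl, single, pair, hB])]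
      have := loopB c (single O) (Function.update st 1 (true :: true :: w))
      rw [Function.update_self] at this
      rw [count_mono _ _ _ (2 * w.length + 7) (by simp only [List.length_cons]; omega) _ _ this]
      simp [fin1, hA', hB]
    · have hB' : O (true :: true :: w) = false := by simpa using hB
      rw [Mach1_count_cont (c' := ⟨c + 17, Function.update st 1 (true :: true :: w)⟩) _
        (by simp [step, Mach1_get, Mach1_tl, single, pair, hB'])]
      rw [show 2 * w.length + 7 = (2 * w.length + 6) + 1 from rfl]
      rw [Mach1_count_halt_false _ (by simp [step, Mach1_get, Mach1_tl])]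
      simp [fin1, hA', hB']

end BppPath
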