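import Mathlib
import Pool.Agent.BppPath.MachDefs
import Pool.Agent.BppPath.Mach1

/-!
The guessing loop.
-/

namespace BppPath

theorem mem_lists (m : ℕ) (z : List Bool) : z ∈ lists m ↔ z.length = m := by
  induction m generalizing z with
  | zero => simp [lists, List.length_eq_zero_iff]
  | succ m ih =>
    simp only [lists, Finset.mem_union, Finset.mem_image, ih]
    constructor
    · rintro (⟨z', h, rfl⟩ | ⟨z', h, rfl⟩) <;> simp [h]
    · intro h
      rcases List.eq_nil_or_concat z with rfl | ⟨z', b, rfl⟩
      · simp at h
      · have h' : z'.length = m := by simpa using h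
        cases b
        · exact Or.inl ⟨z', h', by simp⟩
        · exact Or.inr ⟨z', h', by simp⟩

theorem Mach2_sum_lists {M : Type*} [AddCommMonoid M] (m : ℕ) (f : List Bool → M) :
    ∑ z ∈ lists (m + 1), f z =
      ∑ z ∈ lists m, f (z ++ [false]) + ∑ z ∈ lists m, f (z ++ [true]) := by
  rw [lists, Finset.sum_union, Finset.sum_image, Finset.sum_image]
  · intro a _ b _ h
    simpa using h
  · intro a _ b _ h
    simpa using h
  · rw [Finset.disjoint_left]
    intro z h1 h2
    simp only [Finset.mem_image] at h1 h2
    obtain ⟨a, _, rfl⟩ := h1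
    obtain ⟨b, _, hb⟩ := h2
    have := congrArg List.getLast? hb
    simp at this

theorem Mach2_base_length (c n : ℕ) : (base c n).length = n + c + 2 := by
  simp [base]; omega

/-- Guessing loop: from state `c+4` with stack 1 = `y ++ base c n`, `m = ell c n - |y|` more bits are
guessed (each costs 5 steps). Induction on `m`; the new bit is put in front of `y`. -/
theorem guessLoop (c n : ℕ) (O : Lang) (hO : Clock O) (m : ℕ) (y : List Bool)
    (hy : y.length + m = ell c n) (st : ℕ → List Bool) (h : st 1 = y ++ base c n) :
    count (mach c) (single O) (5 * m + 2 * (ell c n + n + c + 2) + 20) ⟨c + 4, st⟩ =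
      some (∑ z ∈ lists m, (fin1 O (z ++ y ++ base c n)).1,
        ∑ z ∈ lists m, (fin1 O (z ++ y ++ base c n)).2) := by
  induction m generalizing y st with
  | zero =>
    have hl : y.length = ell c n := by omega
    have hC := hO c n y
    rw [hl, codeC] at hC
    simp only [le_refl, decide_true] at hC
    rw [show 5 * 0 + 2 * (ell c n + n + c + 2) + 20 =
      (2 * (ell c n + n + c + 2) + 18) + 1 + 1 by omega]
    rw [Mach1_count_cont (c' := ⟨c + 5, Function.update st 1 (false :: (y ++ base c n))⟩) _
      (by simp [step, Mach1_get, Mach1_tl, h])]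
    rw [Mach1_count_cont (c' := ⟨c + 10, Function.update st 1 (false :: (y ++ base c n))⟩) _
      (by simp [step, Mach1_get, Mach1_tl, single, pair, hC])]
    have ht := tail c O (Function.update st 1 (false :: (y ++ base c n))) (y ++ base c n)
      (Function.update_self _ _ _)
    rw [count_mono _ _ _ (2 * (ell c n + n + c + 2) + 18) ?_ _ _ ht]
    · simp [lists]
    · rw [List.length_append, Mach2_base_length, hl]
      omega
  | succ m ih =>
    have hl : ¬ ell c n ≤ y.length := by omega
    have hC := hO c n y
    rw [codeC] at hC
    simp only [hl, decide_false] at hC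
    rw [show 5 * (m + 1) + 2 * (ell c n + n + c + 2) + 20 =
      (5 * m + 2 * (ell c n + n + c + 2) + 20) + 1 + 1 + 1 + 1 + 1 by omega]
    rw [Mach1_count_cont (c' := ⟨c + 5, Function.update st 1 (false :: (y ++ base c n))⟩) _
      (by simp [step, Mach1_get, Mach1_tl, h])]
    rw [Mach1_count_cont (c' := ⟨c + 6, Function.update st 1 (false :: (y ++ base c n))⟩) _
      (by simp [step, Mach1_get, Mach1_tl, single, pair, hC])]
    rw [Mach1_count_cont (c' := ⟨c + 7, Function.update st 1 (y ++ base c n)⟩) _
      (by simp [step, Mach1_get, Mach1_tl])]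
    have hf : step (mach c) (single O) ⟨c + 7, Function.update st 1 (y ++ base c n)⟩ =
        .fork ⟨c + 8, Function.update st 1 (y ++ base c n)⟩
          ⟨c + 9, Function.update st 1 (y ++ base c n)⟩ := by
      simp [step, Mach1_get, Mach1_tl]
    have e0 : count (mach c) (single O) ((5 * m + 2 * (ell c n + n + c + 2) + 20) + 1)
        ⟨c + 8, Function.update st 1 (y ++ base c n)⟩ =
        some (∑ z ∈ lists m, (fin1 O (z ++ (false :: y) ++ base c n)).1,
          ∑ z ∈ lists m, (fin1 O (z ++ (false :: y) ++ base c n)).2) := by
      rw [Mach1_count_cont (c' := ⟨c + 4, Function.update st 1 (false :: y ++ base c n)⟩) _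
        (by simp [step, Mach1_get, Mach1_tl])]
      exact ih (false :: y) (by simp only [List.length_cons]; omega) _ (Function.update_self _ _ _)
    have e1 : count (mach c) (single O) ((5 * m + 2 * (ell c n + n + c + 2) + 20) + 1)
        ⟨c + 9, Function.update st 1 (y ++ base c n)⟩ =
        some (∑ z ∈ lists m, (fin1 O (z ++ (true :: y) ++ base c n)).1,
          ∑ z ∈ lists m, (fin1 O (z ++ (true :: y) ++ base c n)).2) := by
      rw [Mach1_count_cont (c' := ⟨c + 4, Function.update st 1 (true :: y ++ base c n)⟩) _
        (by simp [step, Mach1_get, Mach1_tl])]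
      exact ih (true :: y) (by simp only [List.length_cons]; omega) _ (Function.update_self _ _ _)
    rw [Mach1_count_fork _ hf e0 e1, Mach2_sum_lists, Mach2_sum_lists]
    simp

end BppPath
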