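import Mathlib
import Pool.Agent.BppPath.MachDefs
import Pool.Agent.BppPath.Mach1

/-!
The prefix of the computation.
-/

namespace BppPath

theorem Mach3_get_lt (c i : ℕ) (h : i < c) : (mach c)[i]? = some (Instr.push 1 true (i + 1)) := by
  rw [Mach1_mach_eq, List.getElem?_append_left (by simpa using h)]
  simp [h]

/-- The first `c` steps. -/
theorem Mach3_phase1 (c : ℕ) (ans : Bool → Lang) (t : ℕ) (j i : ℕ) (hij : i + j = c)
    (st : ℕ → List Bool) :
    count (mach c) ans (t + j) ⟨i, st⟩ =
      count (mach c) ans t ⟨c, Function.update st 1 (List.replicate j true ++ st 1)⟩ := by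
  induction j generalizing i st with
  | zero =>
    have : i = c := by omega
    subst this
    simp
  | succ j ih =>
    rw [show t + (j + 1) = (t + j) + 1 by omega]
    rw [Mach1_count_cont (c' := ⟨i + 1, Function.update st 1 (true :: st 1)⟩) _
      (by simp [step, Mach3_get_lt c i (by omega)])]
    rw [ih (i + 1) (by omega)]
    congr 2
    rw [Function.update_idem, Function.update_self]
    congr 1
    rw [List.replicate_succ', List.append_assoc]
    rfl

/-- Reading the input. -/
theorem Mach3_phase2 (c : ℕ) (ans : Bool → Lang) (t : ℕ) (x : List Bool)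
    (st : ℕ → List Bool) (h0 : st 0 = x) :
    ∃ st' : ℕ → List Bool, st' 1 = List.replicate x.length true ++ st 1 ∧
      count (mach c) ans (t + (2 * x.length + 1)) ⟨c + 1, st⟩ =
        count (mach c) ans t ⟨c + 3, st'⟩ := by
  induction x generalizing st with
  | nil =>
    refine ⟨st, by simp, ?_⟩
    rw [show t + (2 * ([] : List Bool).length + 1) = t + 1 from rfl]
    rw [Mach1_count_cont (c' := ⟨c + 3, st⟩) _ (by simp [step, Mach1_get, Mach1_tl, h0])]
  | cons b x ih =>
    obtain ⟨st', h1, h2⟩ := ih (Function.update (Function.update st 0 x) 1 (true :: st 1))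
      (by simp)
    refine ⟨st', ?_, ?_⟩
    · rw [h1, Function.update_self, List.length_cons, List.replicate_succ', List.append_assoc]
      rfl
    · rw [show t + (2 * (b :: x).length + 1) = (t + (2 * x.length + 1)) + 1 + 1 by
        simp only [List.length_cons]; omega]
      rw [Mach1_count_cont (c' := ⟨c + 2, Function.update st 0 x⟩) _
        (by cases b <;> simp [step, Mach1_get, Mach1_tl, h0])]
      rw [Mach1_count_cont
        (c' := ⟨c + 1, Function.update (Function.update st 0 x) 1 (true :: st 1)⟩) _
        (by simp [step, Mach1_get, Mach1_tl])]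
      exact h2

/-- Prefix: from `init x` to state `c+4` in `c + 1 + (2 |x| + 1) + 1` steps. -/
theorem prefixRun (c : ℕ) (ans : Bool → Lang) (x : List Bool) (t : ℕ) :
    ∃ st : ℕ → List Bool, st 1 = base c x.length ∧
      count (mach c) ans (t + (c + 2 * x.length + 3)) (init x) = count (mach c) ans t ⟨c + 4, st⟩ := by
  have hi : init x = ⟨0, fun s => if s = 0 then x else []⟩ := rfl
  set st0 : ℕ → List Bool := fun s => if s = 0 then x else [] with hst0
  set st1 := Function.update st0 1 (List.replicate c true ++ st0 1) with hst1
  set st2 := Function.update st1 1 (false :: st1 1) with hst2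
  obtain ⟨st3, h31, h32⟩ := Mach3_phase2 c ans (t + 1) x st2 (by simp [hst2, hst1, hst0])
  refine ⟨Function.update st3 1 (false :: st3 1), ?_, ?_⟩
  · rw [Function.update_self, h31, hst2, Function.update_self, hst1, Function.update_self]
    simp [base, hst0]
  · rw [hi, show t + (c + 2 * x.length + 3) = (t + 1 + (2 * x.length + 1) + 1) + c by omega]
    rw [Mach3_phase1 c ans _ c 0 (by omega)]
    rw [Mach1_count_cont (c' := ⟨c + 1, st2⟩) _ ?_]
    · rw [h32]
      rw [Mach1_count_cont (c' := ⟨c + 4, Function.update st3 1 (false :: st3 1)⟩) _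
        (by simp [step, Mach1_get, Mach1_tl])]
    · have := Mach1_get c 0
      rw [add_zero] at this
      simp [step, this, Mach1_tl, hst2, hst1]

end BppPath
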