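import Mathlib
import Pool.Agent.BppPath.MachDefs
import Pool.Agent.BppPath.Code1
import Pool.Agent.BppPath.Mach2

/-!
Evaluation of the sums.
-/

namespace BppPath

theorem Mach4_sum_lists (c n : ℕ) (F : List Bool → ℕ) :
    ∑ z ∈ lists (ell c n), F z = ∑ y : El c n, F y.1 := by
  symm
  refine Finset.sum_bij (fun y _ => y.1) ?_ ?_ ?_ ?_
  · intro y _
    exact (mem_lists _ _).mpr y.2
  · intro y _ y' _ h
    exact Subtype.ext h
  · intro z hz
    exact ⟨⟨z, (mem_lists _ _).mp hz⟩, Finset.mem_univ _, rfl⟩
  · intro y _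
    rfl

/-- The sums of `fin1` in terms of the sets: with `H = 2 ^ (ell c n + n + c + 4)`,
`acc = |A| H`, `rej ≤ |B| H + 2 ^ (ell c n)` and `rej ≥ |B| H`, `acc + rej > 0`. -/
theorem sums (c n : ℕ) (O : Lang) (hO : Promise O) :
    ∑ z ∈ lists (ell c n), (fin1 O (z ++ [] ++ base c n)).1 =
        (setA O c n).card * 2 ^ (ell c n + n + c + 4) ∧
    (setB O c n).card * 2 ^ (ell c n + n + c + 4) ≤
        ∑ z ∈ lists (ell c n), (fin1 O (z ++ [] ++ base c n)).2 ∧
    ∑ z ∈ lists (ell c n), (fin1 O (z ++ [] ++ base c n)).2 ≤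
        (setB O c n).card * 2 ^ (ell c n + n + c + 4) + 2 ^ (ell c n) ∧
    0 < ∑ z ∈ lists (ell c n), (fin1 O (z ++ [] ++ base c n)).1 +
      ∑ z ∈ lists (ell c n), (fin1 O (z ++ [] ++ base c n)).2 := by
  have hdis := (hO.2 c n).1
  set H := 2 ^ (ell c n + n + c + 4) with hH
  have hHpos : 0 < H := by positivity
  have hval : ∀ y : El c n, fin1 O (y.1 ++ [] ++ base c n) =
      if y ∈ setA O c n then (H, 0) else if y ∈ setB O c n then (0, H) else (0, 1) := by
    intro y
    have hlen : (y.1 ++ [] ++ base c n).length + 2 = ell c n + n + c + 4 := by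
      have := y.2
      simp only [List.append_nil, List.length_append, base, List.length_cons,
        List.length_replicate, this]
      omega
    have hA : y ∈ setA O c n ↔ O (true :: false :: (y.1 ++ base c n)) = true := by
      unfold setA codeA; exact ⟨fun h => (Finset.mem_filter.mp h).2,
        fun h => Finset.mem_filter.mpr ⟨Finset.mem_univ _, h⟩⟩
    have hB : y ∈ setB O c n ↔ O (true :: true :: (y.1 ++ base c n)) = true := by
      unfold setB codeB; exact ⟨fun h => (Finset.mem_filter.mp h).2,
        fun h => Finset.mem_filter.mpr ⟨Finset.mem_univ _, h⟩⟩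
    unfold fin1
    rw [hlen]
    simp only [hA, hB, List.append_nil, hH]
  rw [Mach4_sum_lists c n (fun z => (fin1 O (z ++ [] ++ base c n)).1),
    Mach4_sum_lists c n (fun z => (fin1 O (z ++ [] ++ base c n)).2)]
  simp only [hval]
  have h1 : ∑ y : El c n, (if y ∈ setA O c n then (H, 0)
      else if y ∈ setB O c n then (0, H) else (0, 1)).1 = (setA O c n).card * H := by
    rw [← smul_eq_mul, ← Finset.sum_const, ← Finset.sum_filter_add_sum_filter_not Finset.univ
      (fun y => y ∈ setA O c n)]
    rw [Finset.sum_congr rfl (g := fun _ => H) (fun y hy => by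
      rw [if_pos (Finset.mem_filter.mp hy).2])]
    rw [Finset.sum_eq_zero (s := Finset.univ.filter (fun y => ¬ y ∈ setA O c n)) (fun y hy => by
      rw [if_neg (Finset.mem_filter.mp hy).2]; split <;> rfl)]
    simp
  have h2 : ∀ y : El c n, (if y ∈ setB O c n then H else 0) ≤ (if y ∈ setA O c n then (H, 0)
      else if y ∈ setB O c n then (0, H) else (0, 1)).2 := by
    intro y
    by_cases hB : y ∈ setB O c n
    · have hA : y ∉ setA O c n := fun h => (Finset.disjoint_left.mp hdis h hB)
      simp [hA, hB]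
    · simp [hB]
  have h3 : ∀ y : El c n, (if y ∈ setA O c n then (H, 0)
      else if y ∈ setB O c n then (0, H) else (0, 1)).2 ≤ (if y ∈ setB O c n then H else 0) + 1 := by
    intro y
    by_cases hA : y ∈ setA O c n
    · simp [hA]
    · by_cases hB : y ∈ setB O c n
      · simp [hA, hB]
      · simp [hA, hB]
  have hsumB : ∑ y : El c n, (if y ∈ setB O c n then H else 0) = (setB O c n).card * H := by
    rw [← Finset.sum_filter, Finset.sum_const, smul_eq_mul]
    simp
  have hcardEl : Fintype.card (El c n) = 2 ^ ell c n := by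
    rw [card_vector, Fintype.card_bool]
  refine ⟨h1, ?_, ?_, ?_⟩
  · rw [← hsumB]
    exact Finset.sum_le_sum (fun y _ => h2 y)
  · calc _ ≤ ∑ y : El c n, ((if y ∈ setB O c n then H else 0) + 1) :=
        Finset.sum_le_sum (fun y _ => h3 y)
      _ = (setB O c n).card * H + 2 ^ ell c n := by
        rw [Finset.sum_add_distrib, hsumB, Finset.sum_const, smul_eq_mul, mul_one,
          Finset.card_univ, hcardEl]
  · rw [← Finset.sum_add_distrib]
    have hne : (Finset.univ : Finset (El c n)).Nonempty := by
      rw [← Finset.card_pos, Finset.card_univ, hcardEl]; positivity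
    refine Finset.sum_pos (fun y _ => ?_) hne
    split
    · simpa using hHpos
    · split
      · simpa using hHpos
      · simp

/-- The time bound is polynomial. -/
theorem time_poly (c : ℕ) : ∃ k : ℕ, ∀ n : ℕ,
    5 * ell c n + 2 * (ell c n + n + c + 2) + 20 + (c + 2 * n + 3) ≤ n ^ k + k := by
  refine ⟨3 * c + 40, fun n => ?_⟩
  unfold ell
  rcases Nat.lt_or_ge n 2 with h | h
  · interval_cases n
    · rw [zero_pow (by omega), zero_pow (by omega)]; omega
    · simp only [one_pow]; omega
  · have h1 : n ^ (2 * c + 8) * 2 ^ 4 ≤ n ^ (3 * c + 40) := by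
      calc n ^ (2 * c + 8) * 2 ^ 4 ≤ n ^ (2 * c + 8) * n ^ 4 :=
            Nat.mul_le_mul_left _ (Nat.pow_le_pow_left h 4)
        _ = n ^ (2 * c + 8 + 4) := (pow_add _ _ _).symm
        _ ≤ n ^ (3 * c + 40) := Nat.pow_le_pow_right (by omega) (by omega)
    have h2 : n ≤ n ^ (2 * c + 8) := Nat.le_self_pow (by omega) n
    omega

end BppPath
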