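import Mathlib
import Pool.Agent.BppPath.MachDefs
import Pool.Agent.BppPath.Mach1
import Pool.Agent.BppPath.Mach2
import Pool.Agent.BppPath.Mach3
import Pool.Agent.BppPath.Mach4

/-!
`lang c O ∈ BPP_path^O`.
-/

namespace BppPath

/-- `lang c O ∈ BPP_path^O`. -/
theorem lang_mem (c : ℕ) (O : Lang) (hO : Promise O) : InBPPpath O (lang c O) := by
  obtain ⟨k, hk⟩ := time_poly c
  refine ⟨mach c, k, fun x => ?_⟩
  set n := x.length with hn
  obtain ⟨st, hst, hrun⟩ := prefixRun c (single O) x
    (5 * ell c n + 2 * (ell c n + n + c + 2) + 20)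
  have hloop := guessLoop c n O hO.1 (ell c n) [] (by simp) st (by rw [hst, ← hn]; rfl)
  rw [← hrun] at hloop
  have hfin := count_mono (mach c) (single O) _ _ (hk n) (init x) _ hloop
  refine ⟨_, _, hfin, ?_, ?_⟩
  all_goals
    obtain ⟨ha, hr1, hr2, hpos⟩ := sums c n O hO
    obtain ⟨hd, hAB⟩ := hO.2 c n
    have hH : 2 ^ (ell c n + n + c + 4) = 16 * (2 ^ (ell c n) * 2 ^ (n + c)) := by
      rw [show ell c n + n + c + 4 = 4 + (ell c n + (n + c)) by ring, pow_add, pow_add]
      norm_num
    have hge : 16 * 2 ^ (ell c n) ≤ 2 ^ (ell c n + n + c + 4) := by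
      rw [hH]
      exact Nat.mul_le_mul_left 16 (Nat.le_mul_of_pos_right _ (by positivity))
    have hell : 0 < 2 ^ (ell c n) := by positivity
    generalize 2 ^ (ell c n + n + c + 4) = H at *
    generalize 2 ^ (ell c n) = E at *
    generalize ∑ z ∈ lists (ell c n), (fin1 O (z ++ [] ++ base c n)).1 = a at *
    generalize ∑ z ∈ lists (ell c n), (fin1 O (z ++ [] ++ base c n)).2 = r at *
  · intro hL
    have hL' : 1 ≤ (setA O c n).card ∧ 8 * (setB O c n).card ≤ (setA O c n).card := by
      simpa [lang, ← hn] using hL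
    obtain ⟨h1, h2⟩ := hL'
    have h3 : 8 * ((setB O c n).card * H) ≤ (setA O c n).card * H := by
      rw [← mul_assoc]; exact Nat.mul_le_mul_right H h2
    have h4 : H ≤ (setA O c n).card * H := Nat.le_mul_of_pos_left H h1
    rw [← ha] at h3 h4
    omega
  · intro hL
    have hL' : ¬ (1 ≤ (setA O c n).card ∧ 8 * (setB O c n).card ≤ (setA O c n).card) := by
      simpa [lang, ← hn] using hL
    have h2 : 8 * (setA O c n).card ≤ (setB O c n).card := by omega
    have h3 : 8 * ((setA O c n).card * H) ≤ (setB O c n).card * H := by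
      rw [← mul_assoc]; exact Nat.mul_le_mul_right H h2
    rw [← ha] at h3
    omega

end BppPath
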