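import Mathlib
import Pool.Agent.BppPath.PathDefs

/-!
Basic facts on `path` and `trace`: induction on the fuel `t`, generalising `i`, `c`.
-/

namespace BppPath

theorem Path1_curQ_le (P : Prog) (i : ℕ) (c : Cfg) : (curQ P i c).length ≤ 1 := by
  unfold curQ
  split <;> simp

/-- The trace has at most `t` entries: each step adds at most one (`curQ` has length <= 1). -/
theorem trace_length (P : Prog) (ans : ℕ → Bool → Lang) (y : ℕ → Bool) (t i : ℕ) (c : Cfg) :
    (trace P ans y t i c).length ≤ t := by
  induction t generalizing i c with
  | zero => simp [trace]
  | succ t ih =>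
    rw [trace, List.length_append]
    have h1 := Path1_curQ_le P i c
    split
    · simp only [List.length_nil]
      omega
    · have := ih (i + isAsk P c) (by assumption)
      omega
    · have := ih i (if y t = true then (by assumption) else (by assumption))
      rename_i c1 c2 _ 
      have := ih i (if y t = true then c1 else c2)
      omega

theorem Path1_step_congr (P : Prog) (a a' : Bool → Lang) (i : ℕ) (c : Cfg)
    (h : ∀ e ∈ curQ P i c, a' e.2.1 e.2.2 = a e.2.1 e.2.2) : step P a' c = step P a c := by
  unfold step
  unfold curQ at h
  split
  · rfl
  · rfl
  · rename_i b s no yes heq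
    rw [heq] at h
    have := h (i, b, c.st s) (by simp)
    simp only at this
    rw [this]
  · rfl
  · rfl
  · rfl
  · rfl

/-- If `ans'` answers the queries of the run with `ans` in the same way, both runs coincide. -/
theorem path_congr (P : Prog) (ans ans' : ℕ → Bool → Lang) (y : ℕ → Bool) (t i : ℕ) (c : Cfg)
    (h : ∀ e ∈ trace P ans y t i c, ans' e.1 e.2.1 e.2.2 = ans e.1 e.2.1 e.2.2) :
    path P ans' y t i c = path P ans y t i c ∧ trace P ans' y t i c = trace P ans y t i c := by
  induction t generalizing i c with
  | zero => simp [path, trace]
  | succ t ih =>
    have hstep : step P (ans' i) c = step P (ans i) c := by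
      refine Path1_step_congr P (ans i) (ans' i) i c ?_
      intro e he
      have h1 := h e (by rw [trace]; exact List.mem_append_left _ he)
      have h2 : e.1 = i := by
        unfold curQ at he
        split at he
        · simp only [List.mem_singleton] at he
          rw [he]
        · simp at he
      rw [h2] at h1
      exact h1
    rw [path, path, trace, trace, hstep]
    rw [trace] at h
    cases hs : step P (ans i) c with
    | halt b => exact ⟨rfl, rfl⟩
    | cont c' =>
      rw [hs] at h
      simp only
      have := ih (i + isAsk P c) c' (fun e he => h e (List.mem_append_right _ he))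
      rw [this.1, this.2]
      exact ⟨rfl, rfl⟩
    | fork c₁ c₂ =>
      rw [hs] at h
      simp only
      have := ih i (if y t then c₁ else c₂) (fun e he => h e (List.mem_append_right _ he))
      rw [this.1, this.2]
      exact ⟨rfl, rfl⟩

/-- Only the choices at indices `< t` matter. -/
theorem path_congr_y (P : Prog) (ans : ℕ → Bool → Lang) (y y' : ℕ → Bool) (t i : ℕ) (c : Cfg)
    (h : ∀ j < t, y' j = y j) :
    path P ans y' t i c = path P ans y t i c ∧ trace P ans y' t i c = trace P ans y t i c := by
  induction t generalizing i c with
  | zero => simp [path, trace]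
  | succ t ih =>
    have ih' := fun i c => ih i c (fun j hj => h j (by omega))
    rw [path, path, trace, trace, h t (by omega)]
    cases hs : step P (ans i) c with
    | halt b => exact ⟨rfl, rfl⟩
    | cont c' =>
      simp only
      rw [(ih' _ _).1, (ih' _ _).2]
      exact ⟨rfl, rfl⟩
    | fork c₁ c₂ =>
      simp only
      rw [(ih' _ _).1, (ih' _ _).2]
      exact ⟨rfl, rfl⟩

end BppPath
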