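import Mathlib
import Pool.Agent.BppPath.PathDefs

/-!
Lengths of the queried strings.
-/

namespace BppPath

theorem Path3_upd (st : ℕ → List Bool) (s : ℕ) (l : List Bool) (B : ℕ)
    (h1 : ∀ s, (st s).length ≤ B) (h2 : l.length ≤ B + 1) :
    ∀ s', (Function.update st s l s').length ≤ B + 1 := by
  intro s'
  by_cases h : s' = s
  · subst h
    rw [Function.update_self]
    exact h2
  · rw [Function.update_of_ne h]
    have := h1 s'
    omega

theorem Path3_step (P : Prog) (a : Bool → Lang) (c : Cfg) (B : ℕ)
    (hB : ∀ s, (c.st s).length ≤ B) :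
    (∀ c', step P a c = .cont c' → ∀ s, (c'.st s).length ≤ B + 1) ∧
    (∀ c₁ c₂, step P a c = .fork c₁ c₂ → (∀ s, (c₁.st s).length ≤ B + 1) ∧
      ∀ s, (c₂.st s).length ≤ B + 1) := by
  have hB' : ∀ s, (c.st s).length ≤ B + 1 := fun s => (hB s).trans (Nat.le_succ B)
  unfold step
  split
  · rename_i s b q _
    refine ⟨fun c' h => ?_, fun c₁ c₂ h => by simp at h⟩
    simp only [Res.cont.injEq] at h
    subst h
    refine Path3_upd _ _ _ _ hB ?_
    simp only [List.length_cons]
    have := hB s
    omega
  · rename_i s e z o _
    split
    · refine ⟨fun c' h => ?_, fun c₁ c₂ h => by simp at h⟩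
      simp only [Res.cont.injEq] at h
      subst h
      exact hB'
    · rename_i l hl
      refine ⟨fun c' h => ?_, fun c₁ c₂ h => by simp at h⟩
      simp only [Res.cont.injEq] at h
      subst h
      refine Path3_upd _ _ _ _ hB ?_
      have := hB s
      rw [hl, List.length_cons] at this
      omega
    · rename_i l hl
      refine ⟨fun c' h => ?_, fun c₁ c₂ h => by simp at h⟩
      simp only [Res.cont.injEq] at h
      subst h
      refine Path3_upd _ _ _ _ hB ?_
      have := hB s
      rw [hl, List.length_cons] at this
      omega
  · refine ⟨fun c' h => ?_, fun c₁ c₂ h => by simp at h⟩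
    simp only [Res.cont.injEq] at h
    subst h
    exact hB'
  · refine ⟨fun c' h => by simp at h, fun c₁ c₂ h => ?_⟩
    simp only [Res.fork.injEq] at h
    obtain ⟨h1, h2⟩ := h
    subst h1
    subst h2
    exact ⟨hB', hB'⟩
  · exact ⟨fun c' h => by simp at h, fun c₁ c₂ h => by simp at h⟩
  · exact ⟨fun c' h => by simp at h, fun c₁ c₂ h => by simp at h⟩
  · exact ⟨fun c' h => by simp at h, fun c₁ c₂ h => by simp at h⟩

/-- Queried strings are short: each step lengthens a stack by at most one symbol. -/
theorem trace_len (P : Prog) (ans : ℕ → Bool → Lang) (y : ℕ → Bool) (t i : ℕ) (c : Cfg) (B : ℕ)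
    (hB : ∀ s, (c.st s).length ≤ B)
    (e : ℕ × Bool × List Bool) (he : e ∈ trace P ans y t i c) : e.2.2.length ≤ B + t := by
  induction t generalizing i c B with
  | zero => simp [trace] at he
  | succ t ih =>
    rw [trace, List.mem_append] at he
    rcases he with he | he
    · unfold curQ at he
      split at he
      · rename_i b s _ _ _
        simp only [List.mem_singleton] at he
        rw [he]
        have := hB s
        simp only
        omega
      · simp at he
    · obtain ⟨h1, h2⟩ := Path3_step P (ans i) c B hB
      cases hs : step P (ans i) c with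
      | halt b =>
        rw [hs] at he
        simp at he
      | cont c' =>
        rw [hs] at he
        have := ih _ c' (B + 1) (h1 c' hs) he
        omega
      | fork c₁ c₂ =>
        rw [hs] at he
        obtain ⟨h3, h4⟩ := h2 c₁ c₂ hs
        simp only at he
        have := ih _ _ (B + 1) (by split_ifs; exacts [h3, h4]) he
        omega

theorem trace_len_init (P : Prog) (ans : ℕ → Bool → Lang) (y : ℕ → Bool) (t i : ℕ)
    (x : List Bool) (e : ℕ × Bool × List Bool) (he : e ∈ trace P ans y t i (init x)) :
    e.2.2.length ≤ x.length + t := by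
  refine trace_len P ans y t i (init x) x.length ?_ e he
  intro s
  unfold init
  simp only
  split_ifs <;> simp

end BppPath
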