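import Mathlib
import Pool.Agent.BppPath.PathDefs
import Pool.Agent.BppPath.Path1

/-!
`count` versus `path`.
-/

namespace BppPath

/-- Accepting paths are counted by `count`. (`→`: build `y` by recursion, `y t` = the branch with
positive count, using `path_congr_y` to change `y` at index `t` only.) -/
theorem count_pos_iff (P : Prog) (ans : Bool → Lang) (t i : ℕ) (c : Cfg) (a r : ℕ)
    (h : count P ans t c = some (a, r)) :
    0 < a ↔ ∃ y : ℕ → Bool, path P (fun _ => ans) y t i c = some true := by
  induction t generalizing i c a r with
  | zero => simp [count] at h
  | succ t ih =>
    rw [count] at h
    cases hs : step P ans c with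
    | halt b =>
      rw [hs] at h
      cases b with
      | true =>
        simp only [Option.some.injEq, Prod.mk.injEq] at h
        constructor
        · intro _
          refine ⟨fun _ => true, ?_⟩
          rw [path, hs]
        · intro _
          omega
      | false =>
        simp only [Option.some.injEq, Prod.mk.injEq] at h
        constructor
        · intro h'
          omega
        · rintro ⟨y, hy⟩
          rw [path, hs] at hy
          simp at hy
    | cont c' =>
      rw [hs] at h
      rw [ih (i + isAsk P c) c' a r h]
      constructor
      · rintro ⟨y, hy⟩
        refine ⟨y, ?_⟩
        rw [path, hs]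
        exact hy
      · rintro ⟨y, hy⟩
        refine ⟨y, ?_⟩
        rw [path, hs] at hy
        exact hy
    | fork c₁ c₂ =>
      rw [hs] at h
      simp only at h
      cases h1 : count P ans t c₁ with
      | none => rw [h1] at h; simp at h
      | some p =>
        cases h2 : count P ans t c₂ with
        | none => rw [h1, h2] at h; simp at h
        | some q =>
          rw [h1, h2] at h
          simp only [Option.some.injEq, Prod.mk.injEq] at h
          have i1 := ih i c₁ p.1 p.2 h1
          have i2 := ih i c₂ q.1 q.2 h2
          constructor
          · intro ha
            rcases Nat.eq_zero_or_pos p.1 with h0 | h0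
            · have h3 : 0 < q.1 := by omega
              obtain ⟨y, hy⟩ := i2.1 h3
              refine ⟨Function.update y t false, ?_⟩
              rw [path, hs]
              simp only [Function.update_self]
              rw [← hy]
              refine (path_congr_y P (fun _ => ans) y (Function.update y t false) t i c₂ ?_).1
              intro j hj
              rw [Function.update_of_ne (by omega)]
            · obtain ⟨y, hy⟩ := i1.1 h0
              refine ⟨Function.update y t true, ?_⟩
              rw [path, hs]
              simp only [Function.update_self]
              rw [← hy]
              refine (path_congr_y P (fun _ => ans) y (Function.update y t true) t i c₁ ?_).1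
              intro j hj
              rw [Function.update_of_ne (by omega)]
          · rintro ⟨y, hy⟩
            rw [path, hs] at hy
            simp only at hy
            split_ifs at hy
            · have := i1.2 ⟨y, hy⟩
              omega
            · have := i2.2 ⟨y, hy⟩
              omega

theorem Path4_no_fork (P : Prog) (hP : Det P) (ans : Bool → Lang) (c c₁ c₂ : Cfg) :
    step P ans c ≠ .fork c₁ c₂ := by
  unfold step
  split
  · simp
  · split <;> simp
  · simp
  · rename_i l r heq
    exact absurd (List.mem_of_getElem? heq) (hP l r)
  · simp
  · simp
  · simp

/-- Deterministic programs: the count determines the path (for all choices `y`). -/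
theorem path_of_count_det (P : Prog) (hP : Det P) (ans : Bool → Lang) (y : ℕ → Bool) (t i : ℕ)
    (c : Cfg) (b : Bool) (h : count P ans t c = some (if b then (1, 0) else (0, 1))) :
    path P (fun _ => ans) y t i c = some b := by
  induction t generalizing i c with
  | zero => simp [count] at h
  | succ t ih =>
    rw [count] at h
    rw [path]
    cases hs : step P ans c with
    | halt b' =>
      rw [hs] at h
      cases b' <;> cases b <;> simp at h ⊢
    | cont c' =>
      rw [hs] at h
      exact ih _ _ h
    | fork c₁ c₂ => exact absurd hs (Path4_no_fork P hP ans c c₁ c₂)

/-- Converse of `path_of_count_det`. -/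
theorem count_of_path_det (P : Prog) (hP : Det P) (ans : Bool → Lang) (y : ℕ → Bool) (t i : ℕ)
    (c : Cfg) (b : Bool) (h : path P (fun _ => ans) y t i c = some b) :
    count P ans t c = some (if b then (1, 0) else (0, 1)) := by
  induction t generalizing i c with
  | zero => simp [path] at h
  | succ t ih =>
    rw [path] at h
    rw [count]
    cases hs : step P ans c with
    | halt b' =>
      rw [hs] at h
      cases b' <;> cases b <;> simp at h ⊢
    | cont c' =>
      rw [hs] at h
      exact ih _ _ h
    | fork c₁ c₂ => exact absurd hs (Path4_no_fork P hP ans c c₁ c₂)

end BppPath
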