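import Mathlib
import Pool.Agent.BppPath.PathDefs
import Pool.Agent.BppPath.Path1
import Pool.Agent.BppPath.Path3
import Pool.Agent.BppPath.Path4

/-!
NP languages as `npLang`.
-/

namespace BppPath

/-- An NP language is of the form `npLang P k A`. -/
theorem InNP.eq_npLang {A L : Lang} (h : InNP A L) : ∃ (P : Prog) (k : ℕ), L = npLang P k A := by
  classical
  obtain ⟨P, k, h⟩ := h
  refine ⟨P, k, ?_⟩
  funext x
  obtain ⟨a, r, h1, h2⟩ := h x
  have h3 := count_pos_iff P (single A) (x.length ^ k + k) 0 (init x) a r h1
  unfold npLang
  rw [Bool.eq_iff_iff, h2, h3, decide_eq_true_iff]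

/-- `npLang` on short inputs depends only on short oracle strings. -/
theorem npLang_congr (P : Prog) (k : ℕ) (A A' : Lang) (b : ℕ) (x : List Bool)
    (hb : x.length + (x.length ^ k + k) < b) (h : ∀ w : List Bool, w.length < b → A' w = A w) :
    npLang P k A' x = npLang P k A x := by
  classical
  have key : ∀ y : ℕ → Bool,
      path P (fun _ => single A') y (x.length ^ k + k) 0 (init x) =
        path P (fun _ => single A) y (x.length ^ k + k) 0 (init x) := by
    intro y
    refine (path_congr P (fun _ => single A) (fun _ => single A') y _ 0 (init x) ?_).1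
    intro e he
    have hl := trace_len_init P (fun _ => single A) y _ 0 x e he
    have hA := h e.2.2 (by omega)
    cases hb' : e.2.1 with
    | false => simp [single, pair]
    | true => simp [single, pair, hA]
  unfold npLang
  simp only [key]

end BppPath
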