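import Mathlib
import Pool.Agent.BppPath.CodeDefs

/-!
The parameters of the diagonalisation.
-/

namespace BppPath

/-- Time bound of the top machine. -/
def pT (c k n : ℕ) : ℕ := k * 2 ^ (n ^ c) + k
/-- Query bound of the top machine. -/
def pq (c n : ℕ) : ℕ := c * Nat.log 2 n + c
/-- Time bound of `N` on the queries. -/
def pTN (c k kN n : ℕ) : ℕ := (n + pT c k n) ^ kN + kN
/-- Time bound of `M` on the queries of `N`. -/
def pTM (c k kN kM n : ℕ) : ℕ := (n + pT c k n + pTN c k kN n) ^ kM + kM
/-- Exponent of the number of certificates. -/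
def pd (c k kN kM n : ℕ) : ℕ :=
  pq c n + 1 + pq c n * (2 * pTN c k kN n + pTN c k kN n * pTM c k kN kM n)
/-- Locality. -/
def pw (c k kN kM n : ℕ) : ℕ := pT c k n + pTM c k kN kM n

end BppPath
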