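import Mathlib
import Pool.Agent.BppPath.ParamDefs

/-!
The parameter inequalities.
-/

namespace BppPath

/-- `f n ≤ 2 ^ (C (n ^ c + n + 1))` for some `C`. -/
def EB (c : ℕ) (f : ℕ → ℕ) : Prop := ∃ C : ℕ, ∀ n : ℕ, f n ≤ 2 ^ (C * (n ^ c + n + 1))

private theorem EB.mono {c : ℕ} {f g : ℕ → ℕ} (hg : EB c g) (h : ∀ n, f n ≤ g n) : EB c f := by
  obtain ⟨C, hC⟩ := hg
  exact ⟨C, fun n => (h n).trans (hC n)⟩

private theorem EB.const (c K : ℕ) : EB c (fun _ => K) := by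
  refine ⟨K, fun n => ?_⟩
  have h1 : K < 2 ^ K := Nat.lt_two_pow_self
  have h2 : 2 ^ K ≤ 2 ^ (K * (n ^ c + n + 1)) := by
    apply Nat.pow_le_pow_right (by norm_num)
    exact Nat.le_mul_of_pos_right K (by positivity)
  exact (h1.le).trans h2

private theorem EB.ident (c : ℕ) : EB c (fun n => n) := by
  refine ⟨1, fun n => ?_⟩
  have h1 : n < 2 ^ n := Nat.lt_two_pow_self
  have h2 : 2 ^ n ≤ 2 ^ (1 * (n ^ c + n + 1)) := by
    apply Nat.pow_le_pow_right (by norm_num)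
    rw [one_mul, add_assoc]
    exact Nat.le_trans (Nat.le_add_right n 1) (Nat.le_add_left _ _)
  exact (h1.le).trans h2

private theorem EB.expc (c : ℕ) : EB c (fun n => 2 ^ (n ^ c)) := by
  refine ⟨1, fun n => ?_⟩
  apply Nat.pow_le_pow_right (by norm_num)
  rw [one_mul, add_assoc]
  exact Nat.le_add_right _ _

private theorem EB.mul {c : ℕ} {f g : ℕ → ℕ} (hf : EB c f) (hg : EB c g) :
    EB c (fun n => f n * g n) := by
  obtain ⟨C, hC⟩ := hf
  obtain ⟨D, hD⟩ := hg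
  refine ⟨C + D, fun n => ?_⟩
  have := Nat.mul_le_mul (hC n) (hD n)
  rwa [← pow_add, ← add_mul] at this

private theorem EB.add {c : ℕ} {f g : ℕ → ℕ} (hf : EB c f) (hg : EB c g) :
    EB c (fun n => f n + g n) := by
  refine EB.mono (EB.mul (EB.add_one' hf) (EB.add_one' hg)) ?_
  intro n
  show f n + g n ≤ (f n + 1) * (g n + 1)
  nlinarith [Nat.zero_le (f n * g n)]
where
  EB.add_one' {c : ℕ} {f : ℕ → ℕ} (hf : EB c f) : EB c (fun n => f n + 1) := by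
    obtain ⟨C, hC⟩ := hf
    refine ⟨C + 1, fun n => ?_⟩
    have h1 := hC n
    have h2 : 1 ≤ 2 ^ (C * (n ^ c + n + 1)) := Nat.one_le_two_pow
    have h3 : 2 ^ (C * (n ^ c + n + 1)) * 2 ≤ 2 ^ ((C + 1) * (n ^ c + n + 1)) := by
      rw [← pow_succ]
      apply Nat.pow_le_pow_right (by norm_num)
      rw [add_mul, one_mul]
      omega
    show f n + 1 ≤ _
    omega

private theorem EB.pow {c : ℕ} {f : ℕ → ℕ} (hf : EB c f) (k : ℕ) :
    EB c (fun n => f n ^ k) := by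
  induction k with
  | zero => simpa using EB.const c 1
  | succ k ih => 
    refine EB.mono (EB.mul ih hf) ?_
    intro n
    show f n ^ (k + 1) ≤ f n ^ k * f n
    rw [pow_succ]

private theorem EB.large {c : ℕ} {f : ℕ → ℕ} (hf : EB c f) :
    ∃ n₀, ∀ n ≥ n₀, f n ≤ 2 ^ (n ^ (c + 2)) := by
  obtain ⟨C, hC⟩ := hf
  refine ⟨3 * C + 1, fun n hn => (hC n).trans ?_⟩
  apply Nat.pow_le_pow_right (by norm_num)
  have hn1 : 1 ≤ n := by omega
  have h1 : n ^ c ≤ n ^ (c + 1) := Nat.pow_le_pow_right hn1 (by omega)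
  have h2 : n ≤ n ^ (c + 1) := Nat.le_self_pow (by omega) n
  have h3 : 1 ≤ n ^ (c + 1) := Nat.one_le_pow _ _ hn1
  calc C * (n ^ c + n + 1) ≤ C * (n ^ (c + 1) + n ^ (c + 1) + n ^ (c + 1)) := by gcongr
    _ = (3 * C) * n ^ (c + 1) := by ring
    _ ≤ n * n ^ (c + 1) := by gcongr; omega
    _ = n ^ (c + 2) := by ring

private theorem EB_pq (c : ℕ) : EB c (pq c) := by
  refine EB.mono (EB.add (EB.mul (EB.const c c) (EB.ident c)) (EB.const c c)) ?_
  intro n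
  show c * Nat.log 2 n + c ≤ c * n + c
  gcongr
  exact Nat.log_le_self 2 n

private theorem EB_pT (c k : ℕ) : EB c (pT c k) :=
  EB.add (EB.mul (EB.const c k) (EB.expc c)) (EB.const c k)

private theorem EB_pTN (c k kN : ℕ) : EB c (pTN c k kN) :=
  EB.add (EB.pow (EB.add (EB.ident c) (EB_pT c k)) kN) (EB.const c kN)

private theorem EB_pTM (c k kN kM : ℕ) : EB c (pTM c k kN kM) :=
  EB.add (EB.pow (EB.add (EB.add (EB.ident c) (EB_pT c k)) (EB_pTN c k kN)) kM) (EB.const c kM)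

private theorem EB_pd (c k kN kM : ℕ) : EB c (pd c k kN kM) :=
  EB.add (EB.add (EB_pq c) (EB.const c 1))
    (EB.mul (EB_pq c) (EB.add (EB.mul (EB.const c 2) (EB_pTN c k kN))
      (EB.mul (EB_pTN c k kN) (EB_pTM c k kN kM))))

private theorem EB_pw (c k kN kM : ℕ) : EB c (pw c k kN kM) :=
  EB.add (EB_pT c k) (EB_pTM c k kN kM)

/-- For large `n` there are `κ`, `h` as needed in `core` (with `m = 2 ^ q`, `r = d + 2`,
`K = 9 * 16 ^ (m + 1) * r`, `N = 2 ^ ell c n`).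
Proof: the functions `pT, pq, pTN, pTM, pd, pw` satisfy `EB c` (closed under sums, products, constant
powers, constants, identity), so for large `n` they are `≤ 2 ^ (n ^ (c + 2))`, even with `+ 2`;
`m = 2 ^ (c * log2 n + c) ≤ 2 ^ c * n ^ c ≤ n ^ (c + 1)`. Take `κ = 4 + 4 (m + 1) + n ^ (c + 2)
≤ n ^ (c + 3)`, `h = (m + 2) (κ + 2) ≤ n ^ (2 c + 6)`; finally
`κ + n ^ (c + 2) + h + 1 ≤ n ^ (2 c + 8)`. -/
theorem params (c k kN kM : ℕ) : ∃ n₀ : ℕ, ∀ n ≥ n₀, ∃ κ h : ℕ,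
    9 * 16 ^ (2 ^ pq c n + 1) * (pd c k kN kM n + 2) ≤ 2 ^ κ ∧
    (2 ^ pq c n + 2) * (κ + 2) ≤ h ∧
    9 * 16 ^ (2 ^ pq c n + 1) * (pd c k kN kM n + 2) +
      9 * 16 ^ (2 ^ pq c n + 1) * (pd c k kN kM n + 2) * pw c k kN kM n * 2 ^ h
      ≤ 2 ^ ell c n := by
  obtain ⟨n₁, h₁⟩ := EB.large (EB.add (EB_pd c k kN kM) (EB.const c 2))
  obtain ⟨n₂, h₂⟩ := EB.large (EB.add (EB_pw c k kN kM) (EB.const c 1))
  refine ⟨n₁ + n₂ + 2 ^ c + 8, fun n hn => ?_⟩
  have h2c : 0 < 2 ^ c := by positivity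
  have hd : pd c k kN kM n + 2 ≤ 2 ^ (n ^ (c + 2)) := h₁ n (by omega)
  have hw : pw c k kN kM n + 1 ≤ 2 ^ (n ^ (c + 2)) := h₂ n (by omega)
  have hn8 : 8 ≤ n := by omega
  have hnc : 2 ^ c ≤ n := by omega
  have hm : 2 ^ pq c n ≤ n ^ (c + 1) := by
    unfold pq
    rw [pow_add, mul_comm c, pow_mul, pow_succ]
    apply Nat.mul_le_mul _ hnc
    exact Nat.pow_le_pow_left (Nat.pow_log_le_self 2 (by omega)) c
  set m := 2 ^ pq c n with hmdef
  set a := n ^ (c + 1) with ha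
  have e2 : n ^ (c + 2) = n * a := by rw [ha]; ring
  have e3 : n ^ (c + 3) = n * (n * a) := by rw [ha]; ring
  have e5 : n ^ (2 * c + 5) = a * (n * (n * (n * a))) := by rw [ha]; ring
  have e8 : n ^ (2 * c + 8) = n * (n * (n * n ^ (2 * c + 5))) := by ring
  have ha1 : 8 ≤ a := by
    rw [ha]
    exact hn8.trans (Nat.le_self_pow (by omega) n)
  set b := n * a with hb
  have hab : 8 * a ≤ b := by rw [hb]; exact Nat.mul_le_mul_right a hn8
  set d := n * b with hdd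
  have hbd : 8 * b ≤ d := by rw [hdd]; exact Nat.mul_le_mul_right b hn8
  set κ := 4 + 4 * (m + 1) + n ^ (c + 2) with hκ
  have hκ' : κ = 8 + 4 * m + b := by rw [hκ, e2]; ring
  have hκle : κ ≤ d := by omega
  have hK : 9 * 16 ^ (m + 1) * (pd c k kN kM n + 2) ≤ 2 ^ κ := by
    have h16 : (16 : ℕ) ^ (m + 1) = 2 ^ (4 * (m + 1)) := by
      rw [pow_mul]; norm_num
    calc 9 * 16 ^ (m + 1) * (pd c k kN kM n + 2) 
        ≤ 2 ^ 4 * 2 ^ (4 * (m + 1)) * 2 ^ (n ^ (c + 2)) := by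
          rw [h16]
          gcongr
          norm_num
      _ = 2 ^ κ := by rw [hκ, pow_add 2 (4 + 4 * (m + 1)), pow_add 2 4]
  refine ⟨κ, (m + 2) * (κ + 2), hK, le_rfl, ?_⟩
  set h := (m + 2) * (κ + 2) with hh
  have hhle : h ≤ n ^ (2 * c + 5) := by
    calc h ≤ (a + a) * (d + d) := by
          rw [hh]
          exact Nat.mul_le_mul (by omega) (by omega)
      _ = a * (4 * d) := by ring
      _ ≤ a * (n * d) := by gcongr; omega
      _ = n ^ (2 * c + 5) := by rw [e5]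
  have hd5 : d ≤ n ^ (2 * c + 5) := by
    rw [e5]
    calc d ≤ n * d := Nat.le_mul_of_pos_left d (by omega)
      _ ≤ a * (n * d) := Nat.le_mul_of_pos_left _ (by omega)
  have hfin : κ + n ^ (c + 2) + h ≤ ell c n := by
    unfold ell
    have h8 : 3 * n ^ (2 * c + 5) ≤ n ^ (2 * c + 8) := by
      rw [e8]
      calc 3 * n ^ (2 * c + 5) ≤ n * n ^ (2 * c + 5) := by gcongr; omega
        _ ≤ n * (n * n ^ (2 * c + 5)) := Nat.le_mul_of_pos_left _ (by omega)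
        _ ≤ n * (n * (n * n ^ (2 * c + 5))) := Nat.le_mul_of_pos_left _ (by omega)
    rw [e2]
    omega
  have h2h : 1 ≤ 2 ^ h := Nat.one_le_two_pow
  set K := 9 * 16 ^ (m + 1) * (pd c k kN kM n + 2) with hKdef
  calc K + K * pw c k kN kM n * 2 ^ h ≤ K * (pw c k kN kM n + 1) * 2 ^ h := by
        have : K ≤ K * 2 ^ h := Nat.le_mul_of_pos_right K (by omega)
        calc K + K * pw c k kN kM n * 2 ^ h ≤ K * 2 ^ h + K * pw c k kN kM n * 2 ^ h := by omega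
          _ = K * (pw c k kN kM n + 1) * 2 ^ h := by ring
    _ ≤ 2 ^ κ * 2 ^ (n ^ (c + 2)) * 2 ^ h :=
        Nat.mul_le_mul_right _ (Nat.mul_le_mul hK hw)
    _ = 2 ^ (κ + n ^ (c + 2) + h) := by rw [pow_add 2 (κ + n ^ (c + 2)) h, pow_add 2 κ]
    _ ≤ 2 ^ ell c n := Nat.pow_le_pow_right (by norm_num) hfin

end BppPath
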