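import Mathlib
import Pool.Agent.BppPath.PathDefs
import Pool.Agent.BppPath.Path1

/-!
`asks` versus `trace`.
-/

namespace BppPath

private theorem Path5_no_fork (P : Prog) (hP : Det P) (ans : Bool → Lang) (c c1 c2 : Cfg) :
    step P ans c ≠ .fork c1 c2 := by
  intro h
  unfold step at h
  split at h
  · cases h
  · split at h <;> cases h
  · cases h
  · rename_i l r heq
    exact hP l r (List.mem_of_getElem? heq)
  · cases h
  · cases h
  · cases h

private theorem Path5_asks_succ (P : Prog) (ans : Bool → Lang) (t : ℕ) (c : Cfg) :
    asks P ans (t + 1) c = isAsk P c + (match step P ans c with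
        | .cont c' => asks P ans t c'
        | _ => 0) := rfl

/-- Deterministic programs: indices of queries to the second oracle are `< i + asks`. -/
theorem trace_lt_asks (P : Prog) (hP : Det P) (ans : Bool → Lang) (y : ℕ → Bool) (t i : ℕ)
    (c : Cfg) (j : ℕ) (u : List Bool) (h : (j, true, u) ∈ trace P (fun _ => ans) y t i c) :
    j < i + asks P ans t c := by
  induction t generalizing i c with
  | zero => simp [trace] at h
  | succ t ih =>
    rw [Path5_asks_succ]
    unfold trace at h
    rw [List.mem_append] at h
    rcases h with h | h
    · have : isAsk P c = 1 ∧ j = i := by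
        unfold curQ at h
        unfold isAsk
        split at h
        · rename_i b s no yes heq
          simp only [List.mem_singleton, Prod.mk.injEq] at h
          obtain ⟨h1, h2, h3⟩ := h
          subst h2
          rw [heq]
          exact ⟨rfl, h1⟩
        · simp at h
      omega
    · cases hs : step P ans c with
      | halt b => rw [hs] at h; simp at h
      | cont c' =>
        rw [hs] at h
        have := ih _ _ h
        simp only
        omega
      | fork c1 c2 => exact absurd hs (Path5_no_fork P hP ans c c1 c2)

private theorem Path5_step_congr (P : Prog) (ans ans' : Bool → Lang) (i : ℕ) (c : Cfg)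
    (h : ∀ e ∈ curQ P i c, ans' e.2.1 e.2.2 = ans e.2.1 e.2.2) :
    step P ans' c = step P ans c := by
  unfold step
  unfold curQ at h
  split
  · rfl
  · rfl
  · rename_i b s no yes heq
    rw [heq] at h
    have := h (i, b, c.st s) (by simp)
    simp only at this
    rw [this]
  · rfl
  · rfl
  · rfl
  · rfl

/-- `asks` depends only on the answers along the trace. -/
theorem asks_congr (P : Prog) (ans ans' : Bool → Lang) (y : ℕ → Bool) (t i : ℕ) (c : Cfg)
    (hP : Det P)
    (h : ∀ e ∈ trace P (fun _ => ans) y t i c, ans' e.2.1 e.2.2 = ans e.2.1 e.2.2) :
    asks P ans' t c = asks P ans t c := by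
  induction t generalizing i c with
  | zero => rfl
  | succ t ih =>
    rw [Path5_asks_succ, Path5_asks_succ]
    unfold trace at h
    have hs' : step P ans' c = step P ans c := by
      apply Path5_step_congr P ans ans' i c
      intro e he
      exact h e (by rw [List.mem_append]; exact Or.inl he)
    rw [hs']
    cases hs : step P ans c with
    | halt b => rfl
    | cont c' =>
      simp only
      rw [ih (i + isAsk P c) c']
      intro e he
      apply h e
      rw [List.mem_append]
      right
      rw [hs]
      exact he
    | fork c1 c2 => exact absurd hs (Path5_no_fork P hP ans c c1 c2)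

end BppPath
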