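import Mathlib
import Pool.Agent.BppPath.PathDefs

/-!
Indices in the trace: induction on the fuel `t`, generalising `i`, `c`.
-/

namespace BppPath

private theorem Path2_isAsk_le (P : Prog) (c : Cfg) : isAsk P c ≤ 1 := by
  unfold isAsk
  split <;> simp

private theorem Path2_curQ {P : Prog} {i : ℕ} {c : Cfg} {e : ℕ × Bool × List Bool}
    (h : e ∈ curQ P i c) : e.1 = i := by
  unfold curQ at h
  split at h
  · simp only [List.mem_singleton] at h
    rw [h]
  · simp at h

private theorem Path2_curQ_true {P : Prog} {i j : ℕ} {c : Cfg} {u : List Bool}
    (h : (j, true, u) ∈ curQ P i c) : j = i ∧ isAsk P c = 1 ∧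
      ∀ u' : List Bool, (j, true, u') ∈ curQ P i c → u' = u := by
  refine ⟨Path2_curQ h, ?_, ?_⟩
  · unfold curQ at h
    unfold isAsk
    split at h
    · rename_i b s n y heq
      simp only [List.mem_singleton, Prod.mk.injEq] at h
      obtain ⟨-, hb, -⟩ := h
      subst hb
      rw [heq]
    · simp at h
  · intro u' h'
    unfold curQ at h h'
    split at h
    · rename_i b s n y heq
      rw [heq] at h'
      simp only [List.mem_singleton, Prod.mk.injEq] at h h'
      rw [h.2.2, h'.2.2]
    · simp at h

private theorem Path2_step_fork {P : Prog} {a : Bool → Lang} {c c₁ c₂ : Cfg}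
    (h : step P a c = .fork c₁ c₂) : isAsk P c = 0 := by
  unfold step at h
  unfold isAsk
  split at h
  · rename_i heq; simp [heq]
  · rename_i heq; simp [heq]
  · simp at h
  · rename_i heq; simp [heq]
  · rename_i heq; simp [heq]
  · rename_i heq; simp [heq]
  · rename_i heq; simp [heq]

/-- one step of the membership in the trace -/
private theorem Path2_mem_succ {P : Prog} {ans : ℕ → Bool → Lang} {y : ℕ → Bool} {t i : ℕ} {c : Cfg}
    {e : ℕ × Bool × List Bool} :
    e ∈ trace P ans y (t + 1) i c ↔ e ∈ curQ P i c ∨
      ∃ c', (step P (ans i) c = .cont c' ∨ ∃ c₁ c₂, step P (ans i) c = .fork c₁ c₂ ∧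
        c' = if y t then c₁ else c₂) ∧ e ∈ trace P ans y t (i + isAsk P c) c' := by
  rw [trace, List.mem_append]
  constructor
  · rintro (h | h)
    · exact Or.inl h
    · right
      cases hs : step P (ans i) c with
      | halt b => rw [hs] at h; simp at h
      | cont c' => rw [hs] at h; exact ⟨c', Or.inl rfl, h⟩
      | fork c₁ c₂ =>
        rw [hs] at h
        refine ⟨_, Or.inr ⟨c₁, c₂, rfl, rfl⟩, ?_⟩
        rw [Path2_step_fork hs, add_zero]
        exact h
  · rintro (h | ⟨c', hc, h⟩)
    · exact Or.inl h
    · right
      rcases hc with hs | ⟨c₁, c₂, hs, rfl⟩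
      · rw [hs]; exact h
      · rw [hs]
        rw [Path2_step_fork hs, add_zero] at h
        exact h

/-- Indices of the trace are at least `i`. -/
theorem trace_ge (P : Prog) (ans : ℕ → Bool → Lang) (y : ℕ → Bool) (t i : ℕ) (c : Cfg)
    (e : ℕ × Bool × List Bool) (he : e ∈ trace P ans y t i c) : i ≤ e.1 := by
  induction t generalizing i c with
  | zero => simp [trace] at he
  | succ t ih =>
    rw [Path2_mem_succ] at he
    rcases he with h | ⟨c', -, h⟩
    · exact (Path2_curQ h).ge
    · have := ih _ _ h
      omega

/-- Indices of the trace are less than `i + t`. -/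
theorem trace_lt (P : Prog) (ans : ℕ → Bool → Lang) (y : ℕ → Bool) (t i : ℕ) (c : Cfg)
    (e : ℕ × Bool × List Bool) (he : e ∈ trace P ans y t i c) : e.1 < i + t := by
  induction t generalizing i c with
  | zero => simp [trace] at he
  | succ t ih =>
    rw [Path2_mem_succ] at he
    rcases he with h | ⟨c', -, h⟩
    · have := Path2_curQ h
      omega
    · have := ih _ _ h
      have h2 := Path2_isAsk_le P c
      omega

/-- A query to the second oracle is determined by its index (after it the index is larger). -/
theorem trace_inj (P : Prog) (ans : ℕ → Bool → Lang) (y : ℕ → Bool) (t i : ℕ) (c : Cfg)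
    (j : ℕ) (u u' : List Bool) (h : (j, true, u) ∈ trace P ans y t i c)
    (h' : (j, true, u') ∈ trace P ans y t i c) : u = u' := by
  induction t generalizing i c with
  | zero => simp [trace] at h
  | succ t ih =>
    rw [Path2_mem_succ] at h h'
    rcases h with h | ⟨c₁, hc₁, h⟩
    · rcases h' with h' | ⟨c₂, -, h'⟩
      · exact ((Path2_curQ_true h).2.2 _ h').symm
      · have h1 := Path2_curQ_true h
        have h2 := trace_ge _ _ _ _ _ _ _ h'
        simp only at h2
        omega
    · rcases h' with h' | ⟨c₂, hc₂, h'⟩
      · have h1 := Path2_curQ_true h'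
        have h2 := trace_ge _ _ _ _ _ _ _ h
        simp only at h2
        omega
      · have hcc : c₁ = c₂ := by
          rcases hc₁ with a1 | ⟨d1, d2, a1, rfl⟩
          · rcases hc₂ with a2 | ⟨d3, d4, a2, rfl⟩
            · rw [a1] at a2
              simpa using a2
            · rw [a1] at a2
              simp at a2
          · rcases hc₂ with a2 | ⟨d3, d4, a2, rfl⟩
            · rw [a1] at a2
              simp at a2
            · rw [a1] at a2
              simp only [Res.fork.injEq] at a2
              rw [a2.1, a2.2]
        subst hcc
        exact ih _ _ h h'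

/-- If `ans'` agrees with `ans` on all queries to the first oracle and on the queries to the
second oracle with index `< j`, then the `j`-th query to the second oracle is the same. -/
theorem trace_prefix (P : Prog) (ans ans' : ℕ → Bool → Lang) (y : ℕ → Bool) (t i : ℕ) (c : Cfg)
    (j : ℕ) (u : List Bool)
    (h : ∀ (i' : ℕ) (b : Bool) (v : List Bool), (b = false ∨ i' < j) → ans' i' b v = ans i' b v)
    (hj : (j, true, u) ∈ trace P ans y t i c) : (j, true, u) ∈ trace P ans' y t i c := by
  induction t generalizing i c with
  | zero => simp [trace] at hj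
  | succ t ih =>
    rw [Path2_mem_succ] at hj ⊢
    rcases hj with hj | ⟨c', hc', hj⟩
    · exact Or.inl hj
    · right
      have hs : step P (ans' i) c = step P (ans i) c := by
        by_cases hij : i < j
        · have : ans' i = ans i := by
            funext b v
            exact h i b v (Or.inr hij)
          rw [this]
        · have h2 := trace_ge _ _ _ _ _ _ _ hj
          simp only at h2
          have h3 : isAsk P c = 0 := by omega
          unfold isAsk at h3
          unfold step
          split
          · rfl
          · rfl
          · rename_i b s n y heq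
            cases b
            · rw [h i false _ (Or.inl rfl)]
            · rw [heq] at h3
              simp at h3
          · rfl
          · rfl
          · rfl
          · rfl
      refine ⟨c', ?_, ih _ _ hj⟩
      rw [hs]
      exact hc'

end BppPath
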