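import Mathlib
import Pool.Agent.BppPath.CertDefs
import Pool.Agent.BppPath.Path1
import Pool.Agent.BppPath.Path2
import Pool.Agent.BppPath.Path3

/-!
`Σ₂` certificates: locality of failure, truncation.
-/

namespace BppPath

theorem Sig2b_ext {n : ℕ} (f : ℕ → Bool) (j : ℕ) (hj : j < n) :
    ext (fun i : Fin n => f i.val) j = f j := by
  unfold ext
  rw [dif_pos hj]

theorem Sig2b_fuel {kM : ℕ} {v u : List Bool} {t TN TM : ℕ} (hTN : t ≤ TN)
    (hTM : (v.length + TN) ^ kM + kM ≤ TM) (hu : u.length ≤ v.length + t) :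
    u.length ^ kM + kM ≤ TM := by
  have h1 : u.length ^ kM ≤ (v.length + TN) ^ kM := Nat.pow_le_pow_left (by omega) kM
  omega

/-- the strings asked on a run, as a finset -/
theorem Sig2b_strings (P : Prog) (A : Lang) (y : ℕ → Bool) (t : ℕ) (c : Cfg) :
    ∃ Z : Finset (List Bool), Z.card ≤ t ∧ ∀ A' : Lang, (∀ z ∈ Z, A' z = A z) →
      path P (fun _ => single A') y t 0 c = path P (fun _ => single A) y t 0 c := by
  classical
  refine ⟨((trace P (fun _ => single A) y t 0 c).map (fun e => e.2.2)).toFinset, ?_, ?_⟩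
  · refine (List.toFinset_card_le _).trans ?_
    rw [List.length_map]
    exact trace_length P _ y t 0 c
  · intro A' hA
    refine (path_congr P (fun _ => single A) (fun _ => single A') y t 0 c (fun e he => ?_)).1
    have h1 : A' e.2.2 = A e.2.2 := by
      apply hA
      rw [List.mem_toFinset, List.mem_map]
      exact ⟨e, he, rfl⟩
    show single A' e.2.1 e.2.2 = single A e.2.1 e.2.2
    unfold single pair
    rcases h2 : e.2.1
    · rfl
    · simpa using h1

/-- Locality of failure. If the path condition fails, it fails for every oracle (`Z = ∅`; the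
path of `N` does not depend on `O`). Otherwise there is a bad query `u` of length
`≤ |v| + (|v| ^ kN + kN)` (`trace_len_init`): if `σ.b j = true`, `Z` is the set of strings asked by
the path of `M` (at most `TM` many, `trace_length`; note `ask false` questions of `M` go to the empty
language and do not matter, but may be included); if `σ.b j = false`, `Z` is the set of strings
asked on an accepting path of `M`; use `path_congr`. -/
theorem Valid2.local {N : Prog} {kN : ℕ} {M : Prog} {kM : ℕ} {O : Lang} {v : List Bool}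
    {σ : Cert2} (TN TM : ℕ) (hTN : v.length ^ kN + kN ≤ TN)
    (hTM : (v.length + TN) ^ kM + kM ≤ TM)
    (h : ¬ Valid2 N kN M kM O v σ) :
    ∃ Z : Finset (List Bool), Z.card ≤ TM ∧
      ∀ O' : Lang, (∀ z ∈ Z, O' z = O z) → ¬ Valid2 N kN M kM O' v σ := by
  classical
  by_cases hp : path N (fun j => single (fun _ => σ.b j)) σ.y (v.length ^ kN + kN) 0 (init v)
      = some true
  · have h1 : ¬ ∀ (j : ℕ) (u : List Bool),
        (j, true, u) ∈ trace N (fun j => single (fun _ => σ.b j)) σ.y (v.length ^ kN + kN) 0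
          (init v) →
        (σ.b j = true →
          path M (fun _ => single O) (σ.z j) (u.length ^ kM + kM) 0 (init u) = some true) ∧
        (σ.b j = false → npLang M kM O u = false) := fun h2 => h ⟨hp, h2⟩
    push Not at h1
    obtain ⟨j, u, hmem, hbad⟩ := h1
    have hlen : u.length ≤ v.length + (v.length ^ kN + kN) := trace_len_init _ _ _ _ _ _ _ hmem
    have hfuel : u.length ^ kM + kM ≤ TM := Sig2b_fuel hTN hTM hlen
    by_cases hA : σ.b j = true →
        path M (fun _ => single O) (σ.z j) (u.length ^ kM + kM) 0 (init u) = some true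
    · obtain ⟨hbj, hnp⟩ := hbad hA
      have hnp1 : npLang M kM O u = true := by
        rcases h3 : npLang M kM O u
        · exact absurd h3 hnp
        · rfl
      unfold npLang at hnp1
      rw [decide_eq_true_eq] at hnp1
      obtain ⟨y, hy⟩ := hnp1
      obtain ⟨Z, hZ, hZ2⟩ := Sig2b_strings M O y (u.length ^ kM + kM) (init u)
      refine ⟨Z, hZ.trans hfuel, fun O' hO' hV => ?_⟩
      have h4 := (hV.2 j u hmem).2 hbj
      unfold npLang at h4
      rw [decide_eq_false_iff_not] at h4
      exact h4 ⟨y, by rw [hZ2 O' hO']; exact hy⟩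
    · have hA' : σ.b j = true ∧
          ¬ path M (fun _ => single O) (σ.z j) (u.length ^ kM + kM) 0 (init u) = some true := by
        rw [Classical.not_imp] at hA
        exact hA
      obtain ⟨Z, hZ, hZ2⟩ := Sig2b_strings M O (σ.z j) (u.length ^ kM + kM) (init u)
      refine ⟨Z, hZ.trans hfuel, fun O' hO' hV => ?_⟩
      have h4 := (hV.2 j u hmem).1 hA'.1
      rw [hZ2 O' hO'] at h4
      exact hA'.2 h4
  · exact ⟨∅, by simp, fun O' _ hV => hp hV.1⟩

/-- Truncation: every valid certificate can be replaced by a finite one (`path_congr_y`, and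
`trace_lt` for the indices `j < TN`). -/
theorem Valid2.finite {N : Prog} {kN : ℕ} {M : Prog} {kM : ℕ} {O : Lang} {v : List Bool}
    {σ : Cert2} (TN TM : ℕ) (hTN : v.length ^ kN + kN ≤ TN)
    (hTM : (v.length + TN) ^ kM + kM ≤ TM)
    (h : Valid2 N kN M kM O v σ) : ∃ s : FCert2 TN TM, Valid2 N kN M kM O v s.toCert := by
  classical
  set t := v.length ^ kN + kN with ht
  let s : FCert2 TN TM := (fun i => σ.y i.val, fun i => σ.b i.val, fun j i => σ.z j.val i.val)
  have hsy : ∀ j < TN, s.toCert.y j = σ.y j := fun j hj => Sig2b_ext σ.y j hj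
  have hsb : ∀ j < TN, s.toCert.b j = σ.b j := fun j hj => Sig2b_ext σ.b j hj
  have hsz : ∀ j < TN, ∀ i < TM, s.toCert.z j i = σ.z j i := by
    intro j hj i hi
    show (if h : j < TN then ext (s.2.2 ⟨j, h⟩) else fun _ => false) i = σ.z j i
    rw [dif_pos hj]
    exact Sig2b_ext (σ.z j) i hi
  have e1 := path_congr_y N (fun j => single (fun _ => σ.b j)) σ.y s.toCert.y t 0 (init v)
    (fun j hj => hsy j (lt_of_lt_of_le hj hTN))
  have e2 := path_congr N (fun j => single (fun _ => σ.b j))
    (fun j => single (fun _ => s.toCert.b j)) s.toCert.y t 0 (init v) (by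
      intro e he
      have hlt : e.1 < 0 + t := trace_lt N _ _ _ _ _ e he
      have h1 : s.toCert.b e.1 = σ.b e.1 := hsb e.1 (by omega)
      show single (fun _ => s.toCert.b e.1) e.2.1 e.2.2 = single (fun _ => σ.b e.1) e.2.1 e.2.2
      rw [h1])
  refine ⟨s, ?_, ?_⟩
  · rw [e2.1, e1.1]
    exact h.1
  · intro j u hmem
    rw [e2.2, e1.2] at hmem
    have hlt : j < 0 + t := trace_lt N _ _ _ _ _ _ hmem
    have hjN : j < TN := by omega
    have hlen : u.length ≤ v.length + t := trace_len_init _ _ _ _ _ _ _ hmem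
    have hfuel : u.length ^ kM + kM ≤ TM := Sig2b_fuel hTN hTM hlen
    have h2 := h.2 j u hmem
    rw [hsb j hjN]
    refine ⟨fun hb => ?_, h2.2⟩
    have e3 := path_congr_y M (fun _ => single O) (σ.z j) (s.toCert.z j) (u.length ^ kM + kM) 0
      (init u) (fun i hi => hsz j hjN i (lt_of_lt_of_le hi hfuel))
    rw [e3.1]
    exact h2.1 hb

end BppPath
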