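import Mathlib
import Pool.Agent.BppPath.CertDefs
import Pool.Agent.BppPath.Path1
import Pool.Agent.BppPath.Path2
import Pool.Agent.BppPath.Path3
import Pool.Agent.BppPath.Sig2b

/-!
Top certificates: locality of failure.
The true run is `path P (fun _ => pair O K') (fun _ => false) T 0 (init x)` with
`K' := npLang N kN (npLang M kM O)`.
-/

namespace BppPath

/-- the strings asked on a run of the top machine -/
theorem Top1_strings (P : Prog) (O : Lang) (b : ℕ → Bool) (y : ℕ → Bool) (t : ℕ) (c : Cfg) :
    ∃ Z : Finset (List Bool), Z.card ≤ t ∧ ∀ O' : Lang, (∀ z ∈ Z, O' z = O z) →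
      path P (fun i => pair O' (fun _ => b i)) y t 0 c
        = path P (fun i => pair O (fun _ => b i)) y t 0 c ∧
      trace P (fun i => pair O' (fun _ => b i)) y t 0 c
        = trace P (fun i => pair O (fun _ => b i)) y t 0 c := by
  classical
  refine ⟨((trace P (fun i => pair O (fun _ => b i)) y t 0 c).map (fun e => e.2.2)).toFinset,
    ?_, ?_⟩
  · refine (List.toFinset_card_le _).trans ?_
    rw [List.length_map]
    exact trace_length P _ y t 0 c
  · intro O' hO
    refine path_congr P (fun i => pair O (fun _ => b i)) (fun i => pair O' (fun _ => b i))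
      y t 0 c (fun e he => ?_)
    have h1 : O' e.2.2 = O e.2.2 := by
      apply hO
      rw [List.mem_toFinset, List.mem_map]
      exact ⟨e, he, rfl⟩
    show pair O' (fun _ => b e.1) e.2.1 e.2.2 = pair O (fun _ => b e.1) e.2.1 e.2.2
    unfold pair
    rcases h2 : e.2.1
    · simpa using h1
    · rfl

/-- Locality of failure of a top certificate: `Z` = all strings asked by `P` to oracle `false`
(at most `T`), plus, if some `i` with `c.1 i = true` has a query `v` (unique by `trace_inj`,
`|v| ≤ |x| + T`) whose `Σ₂` certificate is invalid, the `≤ TM` strings of `Valid2.local`. If `O'`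
agrees with `O` on `Z`, the run of `P` is the same (`path_congr`). -/
theorem Valid3.local (P N : Prog) (kN : ℕ) (M : Prog) (kM : ℕ) (T q TN TM : ℕ) (x : List Bool)
    (hB : Big kN kM T TN TM x) (O : Lang) (c : Cert3 q TN TM)
    (h : ¬ Valid3 P N kN M kM T q TN TM x O c) :
    ∃ Z : Finset (List Bool), Z.card ≤ T + TM ∧
      ∀ O' : Lang, (∀ z ∈ Z, O' z = O z) → ¬ Valid3 P N kN M kM T q TN TM x O' c := by
  classical
  obtain ⟨Z1, hZ1, hZ1'⟩ := Top1_strings P O (ext c.1) (fun _ => false) T (init x)
  by_cases hp : path P (fun i => pair O (fun _ => ext c.1 i)) (fun _ => false) T 0 (init x)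
      = some c.2.1
  · have h1 : ¬ ∀ i : Fin q, c.1 i = true → ∃ v : List Bool,
        (i.val, true, v) ∈
          trace P (fun i => pair O (fun _ => ext c.1 i)) (fun _ => false) T 0 (init x) ∧
        Valid2 N kN M kM O v (c.2.2 i).toCert := fun h2 => h ⟨hp, h2⟩
    push Not at h1
    obtain ⟨i, hi, hbad⟩ := h1
    by_cases hv : ∃ v : List Bool, (i.val, true, v) ∈
          trace P (fun i => pair O (fun _ => ext c.1 i)) (fun _ => false) T 0 (init x)
    · obtain ⟨v, hv⟩ := hv
      have hlen : v.length ≤ x.length + T := trace_len_init _ _ _ _ _ _ _ hv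
      have hTN : v.length ^ kN + kN ≤ TN := by
        have h3 : v.length ^ kN ≤ (x.length + T) ^ kN := Nat.pow_le_pow_left hlen kN
        have h4 := hB.1
        omega
      have hTM : (v.length + TN) ^ kM + kM ≤ TM := by
        have h3 : (v.length + TN) ^ kM ≤ (x.length + T + TN) ^ kM :=
          Nat.pow_le_pow_left (by omega) kM
        have h4 := hB.2
        omega
      obtain ⟨Z2, hZ2, hZ2'⟩ := Valid2.local TN TM hTN hTM (hbad v hv)
      refine ⟨Z1 ∪ Z2, (Finset.card_union_le _ _).trans (by omega), fun O' hO' hV => ?_⟩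
      have h5 := hZ1' O' (fun z hz => hO' z (Finset.mem_union_left _ hz))
      obtain ⟨v', hv', hval⟩ := hV.2 i hi
      rw [h5.2] at hv'
      have h6 : v' = v := trace_inj P _ _ _ _ _ _ _ _ hv' hv
      rw [h6] at hval
      exact hZ2' O' (fun z hz => hO' z (Finset.mem_union_right _ hz)) hval
    · refine ⟨Z1, by omega, fun O' hO' hV => ?_⟩
      have h5 := hZ1' O' hO'
      obtain ⟨v', hv', _⟩ := hV.2 i hi
      rw [h5.2] at hv'
      exact hv ⟨v', hv'⟩
  · refine ⟨Z1, by omega, fun O' hO' hV => ?_⟩
    have h5 := hZ1' O' hO'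
    have h6 := hV.1
    rw [h5.1] at h6
    exact hp h6

end BppPath
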