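import Mathlib
import Pool.Agent.BppPath.CertDefs
import Pool.Agent.BppPath.Path1
import Pool.Agent.BppPath.Path2

/-!
`Σ₂` certificates: soundness, completeness.
-/

namespace BppPath

private theorem Sig2a_np {P : Prog} {k : ℕ} {A : Lang} {x : List Bool} :
    npLang P k A x = true ↔ ∃ y : ℕ → Bool,
      path P (fun _ => single A) y (x.length ^ k + k) 0 (init x) = some true := by
  unfold npLang
  simp

/-- Soundness: along the path, `σ.b j` is the true answer `npLang M kM O u` (if `σ.b j = true`
the path of `M` shows it). So by `path_congr` the path with true answers accepts too. -/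
theorem Valid2.sound {N : Prog} {kN : ℕ} {M : Prog} {kM : ℕ} {O : Lang} {v : List Bool}
    {σ : Cert2} (h : Valid2 N kN M kM O v σ) : npLang N kN (npLang M kM O) v = true := by
  rw [Sig2a_np]
  refine ⟨σ.y, ?_⟩
  rw [← h.1]
  refine (path_congr N (fun j => single (fun _ => σ.b j)) (fun _ => single (npLang M kM O)) σ.y
    _ _ _ ?_).1
  rintro ⟨j, b, u⟩ he
  cases b
  · simp [single, pair]
  · simp only [single, pair, if_true]
    have h2 := h.2 j u he
    cases hb : σ.b j
    · exact h2.2 hb
    · rw [Sig2a_np]
      exact ⟨_, h2.1 hb⟩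

/-- Completeness: take an accepting path `y` of `N` with true answers, let
`b j := decide (∃ u, (j, true, u) ∈ trace ∧ npLang M kM O u)`; by `trace_inj` the answers agree on
the trace, so `path_congr` applies; `z j` := the choices witnessing `npLang M kM O u`. -/
theorem Valid2.complete {N : Prog} {kN : ℕ} {M : Prog} {kM : ℕ} {O : Lang} {v : List Bool}
    (h : npLang N kN (npLang M kM O) v = true) : ∃ σ : Cert2, Valid2 N kN M kM O v σ := by
  classical
  rw [Sig2a_np] at h
  obtain ⟨y, hy⟩ := h
  set K : Lang := npLang M kM O with hK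
  set tr := trace N (fun _ => single K) y (v.length ^ kN + kN) 0 (init v) with htr
  have hinj : ∀ (j : ℕ) (u u' : List Bool), (j, true, u) ∈ tr → (j, true, u') ∈ tr → u = u' :=
    fun j u u' h1 h2 => trace_inj _ _ _ _ _ _ _ _ _ h1 h2
  set b : ℕ → Bool := fun j => decide (∃ u, (j, true, u) ∈ tr ∧ K u = true) with hb
  have hbK : ∀ (j : ℕ) (u : List Bool), (j, true, u) ∈ tr → b j = K u := by
    intro j u hu
    cases hKu : K u
    · simp only [hb, decide_eq_false_iff_not]
      rintro ⟨u', hu', hKu'⟩
      rw [← hinj j u u' hu hu', hKu] at hKu'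
      simp at hKu'
    · simp only [hb, decide_eq_true_eq]
      exact ⟨u, hu, hKu⟩
  set z : ℕ → ℕ → Bool := fun j =>
    if h : ∃ z : ℕ → Bool, ∃ u : List Bool, (j, true, u) ∈ tr ∧
      path M (fun _ => single O) z (u.length ^ kM + kM) 0 (init u) = some true
    then Classical.choose h else fun _ => false with hz
  have hzK : ∀ (j : ℕ) (u : List Bool), (j, true, u) ∈ tr → K u = true →
      path M (fun _ => single O) (z j) (u.length ^ kM + kM) 0 (init u) = some true := by
    intro j u hu hKu
    rw [hK, Sig2a_np] at hKu
    obtain ⟨z0, hz0⟩ := hKu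
    have hex : ∃ z : ℕ → Bool, ∃ u : List Bool, (j, true, u) ∈ tr ∧
      path M (fun _ => single O) z (u.length ^ kM + kM) 0 (init u) = some true := ⟨z0, u, hu, hz0⟩
    have hzj : z j = Classical.choose hex := by
      simp only [hz]
      rw [dif_pos hex]
    obtain ⟨u', hu', hp⟩ := Classical.choose_spec hex
    rw [hzj, hinj j u u' hu hu']
    exact hp
  have hc := path_congr N (fun _ => single K) (fun j => single (fun _ => b j)) y
    (v.length ^ kN + kN) 0 (init v) (by
      rintro ⟨j, bb, u⟩ he
      cases bb
      · simp [single, pair]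
      · simp only [single, pair, if_true]
        exact hbK j u he)
  refine ⟨⟨y, b, z⟩, ?_, ?_⟩
  · simp only
    rw [hc.1]
    exact hy
  · intro j u hu
    simp only at hu ⊢
    rw [hc.2] at hu
    have hbu := hbK j u hu
    refine ⟨fun hbj => hzK j u hu (by rw [← hbu]; exact hbj), fun hbj => ?_⟩
    exact hbu.symm.trans hbj

end BppPath
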