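import Mathlib
import Pool.Agent.BppPath.CertDefs
import Pool.Agent.BppPath.Path1
import Pool.Agent.BppPath.Path2
import Pool.Agent.BppPath.Path3
import Pool.Agent.BppPath.Sig2a
import Pool.Agent.BppPath.Sig2b

/-!
Top certificates: completeness.
The true run is `path P (fun _ => pair O K') (fun _ => false) T 0 (init x)` with
`K' := npLang N kN (npLang M kM O)`.
-/

namespace BppPath

/-- Completeness: if the true run halts with output `b` and makes at most `q` queries to `K'`,
there is a valid certificate whose answer vector is `i ↦ K' v_i` (`v_i` the `i`-th query, `false` if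
there is none). -/
theorem Valid3.complete (P N : Prog) (kN : ℕ) (M : Prog) (kM : ℕ) (T q TN TM : ℕ)
    (x : List Bool) (hB : Big kN kM T TN TM x) (O : Lang) (b : Bool)
    (hrun : path P (fun _ => pair O (npLang N kN (npLang M kM O))) (fun _ => false) T 0 (init x)
      = some b)
    (hq : ∀ (j : ℕ) (u : List Bool), (j, true, u) ∈
      trace P (fun _ => pair O (npLang N kN (npLang M kM O))) (fun _ => false) T 0 (init x) →
      j < q) :
    ∃ c : Cert3 q TN TM, Valid3 P N kN M kM T q TN TM x O c ∧ c.2.1 = b ∧
      ∀ i : Fin q, (c.1 i = true ↔ ∃ v : List Bool, (i.val, true, v) ∈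
        trace P (fun _ => pair O (npLang N kN (npLang M kM O))) (fun _ => false) T 0 (init x) ∧
        npLang N kN (npLang M kM O) v = true) := by
  classical
  set K' : Lang := npLang N kN (npLang M kM O) with hK'
  set tr := trace P (fun _ => pair O K') (fun _ => false) T 0 (init x) with htr
  obtain ⟨a, ha⟩ : ∃ a : Fin q → Bool, ∀ i : Fin q,
      (a i = true ↔ ∃ v : List Bool, (i.val, true, v) ∈ tr ∧ K' v = true) :=
    ⟨fun i => decide (∃ v : List Bool, (i.val, true, v) ∈ tr ∧ K' v = true),
      fun i => decide_eq_true_iff⟩
  have hcongr := path_congr P (fun _ => pair O K') (fun i => pair O (fun _ => ext a i))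
    (fun _ => false) T 0 (init x) (by
      rintro ⟨j, bb, u⟩ he
      cases bb with
      | false => rfl
      | true =>
        have hj : j < q := hq j u he
        change ext a j = K' u
        have hext : ext a j = a ⟨j, hj⟩ := by
          unfold ext
          rw [dif_pos hj]
        rw [hext]
        by_cases hu : K' u = true
        · rw [hu, ha]
          exact ⟨u, he, hu⟩
        · have hu' : K' u = false := by
            rwa [Bool.not_eq_true] at hu
          rw [hu', ← Bool.not_eq_true, ha]
          rintro ⟨v, hv, hv'⟩
          have := trace_inj P _ _ T 0 (init x) j u v he hv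
          rw [this] at hu
          exact hu hv')
  have hs : ∀ i : Fin q, ∃ s : FCert2 TN TM, a i = true → ∃ v : List Bool,
      (i.val, true, v) ∈ tr ∧ Valid2 N kN M kM O v s.toCert := by
    intro i
    by_cases hi : a i = true
    · obtain ⟨v, hv, hv'⟩ := (ha i).mp hi
      obtain ⟨σ, hσ⟩ := Valid2.complete hv'
      have hlen : v.length ≤ x.length + T :=
        trace_len_init P _ _ T 0 x (i.val, true, v) hv
      obtain ⟨s, hs⟩ := Valid2.finite TN TM
        (le_trans (Nat.add_le_add_right (Nat.pow_le_pow_left hlen kN) kN) hB.1)
        (le_trans (Nat.add_le_add_right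
          (Nat.pow_le_pow_left (Nat.add_le_add_right hlen TN) kM) kM) hB.2) hσ
      exact ⟨s, fun _ => ⟨v, hv, hs⟩⟩
    · exact ⟨(fun _ => false, fun _ => false, fun _ _ => false), fun h => absurd h hi⟩
  choose s hs using hs
  refine ⟨(a, b, s), ⟨?_, ?_⟩, rfl, ha⟩
  · change path P (fun i => pair O (fun _ => ext a i)) (fun _ => false) T 0 (init x) = some b
    rw [hcongr.1]
    exact hrun
  · intro i hi
    obtain ⟨v, hv, hv'⟩ := hs i hi
    refine ⟨v, ?_, hv'⟩
    change (i.val, true, v) ∈ trace P (fun i => pair O (fun _ => ext a i)) (fun _ => false) T 0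
      (init x)
    rw [hcongr.2]
    exact hv

end BppPath
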