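import Mathlib
import Pool.Agent.BppPath.CertDefs
import Pool.Agent.BppPath.Path1
import Pool.Agent.BppPath.Path2
import Pool.Agent.BppPath.Sig2a

/-!
Top certificates: maximal level = true answers.
The true run is `path P (fun _ => pair O K') (fun _ => false) T 0 (init x)` with
`K' := npLang N kN (npLang M kM O)`.
-/

namespace BppPath

/-- Soundness: every valid certificate has level `≤` the level of the certificate `c` of
`Valid3.complete`, and the same output if the levels are equal.
Let `i` be the first index with `c'.1 i ≠ c.1 i`. If `c'.1 i = true`, then `c'` contains a `Σ₂`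
certificate for its `i`-th query `v`, so `K' v = true` (`Valid2.sound`); the run with answers `c'.1`
and the run with answers `c.1` agree up to the `i`-th query (`trace_prefix`), and the run with
answers `c.1` is the true run (`path_congr` applied to the true run, `trace_inj` and `hctrue`, `hq`),
so `v` is the `i`-th query of the true run and `c.1 i = true`, contradiction. Hence
`c'.1 i = false < true = c.1 i`. If `c'.1 = c.1`, both have the same first condition in `Valid3`. -/
theorem Valid3.sound (P N : Prog) (kN : ℕ) (M : Prog) (kM : ℕ) (T q TN TM : ℕ)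
    (x : List Bool) (O : Lang) (c c' : Cert3 q TN TM)
    (hc : Valid3 P N kN M kM T q TN TM x O c)
    (hctrue : ∀ i : Fin q, (c.1 i = true ↔ ∃ v : List Bool, (i.val, true, v) ∈
        trace P (fun _ => pair O (npLang N kN (npLang M kM O))) (fun _ => false) T 0 (init x) ∧
        npLang N kN (npLang M kM O) v = true))
    (hq : ∀ (j : ℕ) (u : List Bool), (j, true, u) ∈
      trace P (fun _ => pair O (npLang N kN (npLang M kM O))) (fun _ => false) T 0 (init x) →
      j < q)
    (hc' : Valid3 P N kN M kM T q TN TM x O c') :
    c'.lev ≤ c.lev ∧ (c'.lev = c.lev → c'.2.1 = c.2.1) := by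
  classical
  -- the run with answers `c.1` is the true run
  have hA : ∀ e ∈ trace P (fun _ => pair O (npLang N kN (npLang M kM O))) (fun _ => false) T 0 (init x),
      (fun i => pair O (fun _ => ext c.1 i)) e.1 e.2.1 e.2.2 =
        (fun _ => pair O (npLang N kN (npLang M kM O))) e.1 e.2.1 e.2.2 := by
    rintro ⟨j, b, u⟩ he
    cases b with
    | false => simp [pair]
    | true =>
      have hj := hq j u he
      have h1 := hctrue ⟨j, hj⟩
      simp only [pair, if_true]
      have h2 : ext c.1 j = c.1 ⟨j, hj⟩ := by unfold ext; rw [dif_pos hj]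
      rw [h2]
      by_cases h3 : c.1 ⟨j, hj⟩ = true
      · obtain ⟨v, hv1, hv2⟩ := h1.1 h3
        have h4 := trace_inj P _ _ T 0 (init x) j v u hv1 he
        rw [h3, ← h4, hv2]
      · have h5 : ¬ npLang N kN (npLang M kM O) u = true := fun h6 => h3 (h1.2 ⟨u, he, h6⟩)
        rw [Bool.not_eq_true] at h3 h5
        rw [h3, h5]
  have hB := (path_congr P _ (fun i => pair O (fun _ => ext c.1 i)) (fun _ => false) T 0 (init x) hA).2
  by_cases heq : c'.1 = c.1
  · refine ⟨le_of_eq (by unfold Cert3.lev; rw [heq]), fun _ => ?_⟩
    have h1 := hc.1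
    have h2 := hc'.1
    rw [heq] at h2
    rw [h2] at h1
    exact Option.some.inj h1
  · -- first difference
    have hex : ∃ i : Fin q, c'.1 i ≠ c.1 i := by
      by_contra hcon
      push Not at hcon
      exact heq (funext hcon)
    obtain ⟨i, hi, hmin⟩ : ∃ i : Fin q, c'.1 i ≠ c.1 i ∧ ∀ j : Fin q, j < i → c'.1 j = c.1 j := by
      obtain ⟨i, hi, hm⟩ := WellFounded.has_min (wellFounded_lt (α := Fin q)) {i | c'.1 i ≠ c.1 i} hex
      refine ⟨i, hi, fun j hj => ?_⟩
      by_contra hcon
      exact hm j hcon hj
    have hfalse : c'.1 i = false := by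
      by_contra hcon
      rw [Bool.not_eq_false] at hcon
      obtain ⟨v, hv1, hv2⟩ := hc'.2 i hcon
      have hK := Valid2.sound hv2
      have h1 := trace_prefix P (fun i => pair O (fun _ => ext c'.1 i)) (fun i => pair O (fun _ => ext c.1 i))
        (fun _ => false) T 0 (init x) i.val v (by
          intro i' b w hib
          rcases hib with hb | hb
          · subst hb
            simp [pair]
          · have hlt : i' < q := lt_trans hb i.2
            have h2 : ext c.1 i' = ext c'.1 i' := by
              unfold ext
              rw [dif_pos hlt, dif_pos hlt]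
              exact (hmin ⟨i', hlt⟩ hb).symm
            simp only [h2]) hv1
      rw [hB] at h1
      have h3 := (hctrue i).2 ⟨v, h1, hK⟩
      exact hi (hcon.trans h3.symm)
    have htrue : c.1 i = true := by
      by_contra hcon
      rw [Bool.not_eq_true] at hcon
      exact hi (hfalse.trans hcon.symm)
    have hlt : c'.lev < c.lev := by
      unfold Cert3.lev
      refine ⟨i, fun j hj => hmin j hj, ?_⟩
      show c'.1 i < c.1 i
      rw [hfalse, htrue]
      decide
    exact ⟨hlt.le, fun h => absurd h hlt.ne⟩

end BppPath
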