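import Mathlib
import Pool.Agent.BppPath.StageDefs
import Pool.Agent.BppPath.Code1
import Pool.Agent.BppPath.Code2
import Pool.Agent.BppPath.Core3
import Pool.Agent.BppPath.Params
import Pool.Agent.BppPath.Top1
import Pool.Agent.BppPath.Top2
import Pool.Agent.BppPath.Top3
import Pool.Agent.BppPath.Path5
import Pool.Agent.BppPath.Path6

/-!
The stage lemma.
-/

namespace BppPath

private theorem lang_of_inst (c : ℕ) (O : Lang) (n : ℕ) (A B : Finset (El c n)) (o : Bool)
    (hAB : Inst o A B) : lang c (patch O c n A B) (List.replicate n false) = o := by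
  have hl : (List.replicate n false).length = n := List.length_replicate
  unfold lang
  rw [hl, setA_patch, setB_patch]
  cases o with
  | true => simpa [Inst] using hAB
  | false =>
    simp only [Inst] at hAB
    have h1 : 1 ≤ B.card ∧ 8 * A.card ≤ B.card := by simpa using hAB
    rw [decide_eq_false_iff_not]
    omega

private theorem big (c k kN kM n : ℕ) :
    Big kN kM (pT c k n) (pTN c k kN n) (pTM c k kN kM n) (List.replicate n false) := by
  unfold Big pTN pTM
  simp only [List.length_replicate]
  exact ⟨le_rfl, le_rfl⟩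

private theorem card_cert (q TN TM : ℕ) :
    Fintype.card (Cert3 q TN TM) = 2 ^ (q + 1 + q * (2 * TN + TN * TM)) := by
  simp only [Cert3, FCert2, Fintype.card_prod, Fintype.card_fun, Fintype.card_fin,
    Fintype.card_bool]
  ring

/-- Good behaviour on the input `0 ^ n`. -/
private def Good (c k : ℕ) (P N : Prog) (kN : ℕ) (M : Prog) (kM n : ℕ) (O : Lang) : Prop :=
  count P (pair O (npLang N kN (npLang M kM O))) (pT c k n) (init (List.replicate n false)) =
    some (if lang c O (List.replicate n false) then (1, 0) else (0, 1)) ∧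
  asks P (pair O (npLang N kN (npLang M kM O))) (pT c k n) (init (List.replicate n false)) ≤
    pq c n

private theorem exists_bad (c k : ℕ) (P N : Prog) (kN : ℕ) (M : Prog) (kM : ℕ) (hP : Det P)
    (O : Lang) (n κ h : ℕ)
    (h1 : 9 * 16 ^ (2 ^ pq c n + 1) * (pd c k kN kM n + 2) ≤ 2 ^ κ)
    (h2 : (2 ^ pq c n + 2) * (κ + 2) ≤ h)
    (h3 : 9 * 16 ^ (2 ^ pq c n + 1) * (pd c k kN kM n + 2) +
      9 * 16 ^ (2 ^ pq c n + 1) * (pd c k kN kM n + 2) * pw c k kN kM n * 2 ^ h
      ≤ 2 ^ ell c n) :
    ∃ (A B : Finset (El c n)) (o : Bool), Disjoint A B ∧ Inst o A B ∧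
      ¬ Good c k P N kN M kM n (patch O c n A B) := by
  by_contra hcon
  push Not at hcon
  set x := List.replicate n false with hx
  have hxl : x.length = n := List.length_replicate
  refine core (U := El c n) (C := Cert3 (pq c n) (pTN c k kN n) (pTM c k kN kM n))
    (Λ := Lex (Fin (pq c n) → Bool)) Cert3.lev (fun s => s.2.1)
    (fun s A B => Valid3 P N kN M kM (pT c k n) (pq c n) (pTN c k kN n) (pTM c k kN kM n) x
      (patch O c n A B) s)
    (pw c k kN kM n) (pd c k kN kM n) (2 ^ pq c n) κ h ?_ ?_ ?_ ?_ ?_ h1 h2 ?_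
  · unfold pw pTM
    rcases Nat.eq_zero_or_pos kM with h0 | h0
    · rw [h0, pow_zero]; omega
    · omega
  · rw [card_cert]; rfl
  · rw [Fintype.card_lex]
    simp
  · intro s A B hs
    obtain ⟨Z, hZ, hZ'⟩ := Valid3.local P N kN M kM _ _ _ _ x (big c k kN kM n) _ s hs
    obtain ⟨V, hV, hV'⟩ := patch_local O c n Z
    refine ⟨V, hV.trans hZ, fun A' B' hAB => hZ' _ (hV' A B A' B' hAB)⟩
  · intro A B o hd hi
    obtain ⟨hc1, hc2⟩ := hcon A B o hd hi
    rw [← hx] at hc1 hc2
    have hlang := lang_of_inst c O n A B o hi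
    rw [← hx] at hlang
    rw [hlang] at hc1
    have hpath := path_of_count_det P hP _ (fun _ => false) (pT c k n) 0 (init x) o hc1
    have hq : ∀ (j : ℕ) (u : List Bool), (j, true, u) ∈
      trace P (fun _ => pair (patch O c n A B) (npLang N kN (npLang M kM (patch O c n A B))))
        (fun _ => false) (pT c k n) 0 (init x) → j < pq c n := by
      intro j u hj
      have := trace_lt_asks P hP _ (fun _ => false) (pT c k n) 0 (init x) j u hj
      omega
    obtain ⟨s, hs1, hs2, hs3⟩ := Valid3.complete P N kN M kM (pT c k n) (pq c n)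
      (pTN c k kN n) (pTM c k kN kM n) x (big c k kN kM n) (patch O c n A B) o hpath hq
    refine ⟨s, hs1, fun s' hs' => ?_⟩
    obtain ⟨ha, hb⟩ := Valid3.sound P N kN M kM (pT c k n) (pq c n)
      (pTN c k kN n) (pTM c k kN kM n) x (patch O c n A B) s s' hs1 hs3 hq hs'
    exact ⟨ha, fun he => (hb he).trans hs2⟩
  · rw [card_vector, Fintype.card_bool]
    exact h3

private theorem good_congr (c k : ℕ) (P N : Prog) (kN : ℕ) (M : Prog) (kM n : ℕ) (hP : Det P)
    (O : Lang) : ∃ b' : ℕ, ∀ O'' : Lang, (∀ w : List Bool, w.length < b' → O'' w = O w) →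
      Good c k P N kN M kM n O'' → Good c k P N kN M kM n O := by
  set x := List.replicate n false with hx
  have hxl : x.length = n := List.length_replicate
  set T := pT c k n with hT
  set b₂ := (n + T) + ((n + T) ^ kN + kN) + 1 with hb₂
  set b₃ := b₂ + (b₂ ^ kM + kM) + 1 with hb₃
  refine ⟨b₃ + (n + T) + 1 + (ell c n + n + c + 5), fun O'' hO'' hG => ?_⟩
  have hK₀ : ∀ u : List Bool, u.length < b₂ → npLang M kM O'' u = npLang M kM O u := by
    intro u hu
    refine npLang_congr M kM O O'' b₃ u ?_ (fun w hw => hO'' w (by omega))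
    have : u.length ^ kM ≤ b₂ ^ kM := Nat.pow_le_pow_left hu.le _
    omega
  have hK : ∀ v : List Bool, v.length ≤ n + T →
      npLang N kN (npLang M kM O'') v = npLang N kN (npLang M kM O) v := by
    intro v hv
    refine npLang_congr N kN _ _ b₂ v ?_ hK₀
    have : v.length ^ kN ≤ (n + T) ^ kN := Nat.pow_le_pow_left hv _
    omega
  have hlang : lang c O'' x = lang c O x := by
    apply lang_congr
    intro w hw
    rw [hxl] at hw
    exact hO'' w (by omega)
  obtain ⟨hc1, hc2⟩ := hG
  rw [← hx] at hc1 hc2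
  have hpath := path_of_count_det P hP _ (fun _ => false) T 0 (init x) _ hc1
  have hagree : ∀ e ∈ trace P (fun _ => pair O'' (npLang N kN (npLang M kM O'')))
      (fun _ => false) T 0 (init x),
      pair O (npLang N kN (npLang M kM O)) e.2.1 e.2.2 =
        pair O'' (npLang N kN (npLang M kM O'')) e.2.1 e.2.2 := by
    intro e he
    have hlen := trace_len_init P _ _ T 0 x e he
    rw [hxl] at hlen
    unfold pair
    rcases e.2.1 with _ | _
    · simp only [Bool.false_eq_true, if_false]
      exact (hO'' _ (by omega)).symm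
    · simp only [if_true]
      exact (hK _ hlen).symm
  have hpc := (path_congr P (fun _ => pair O'' (npLang N kN (npLang M kM O'')))
    (fun _ => pair O (npLang N kN (npLang M kM O))) (fun _ => false) T 0 (init x) hagree).1
  rw [hpath] at hpc
  have hcount := count_of_path_det P hP _ _ T 0 (init x) _ hpc
  have hasks := asks_congr P (pair O'' (npLang N kN (npLang M kM O'')))
    (pair O (npLang N kN (npLang M kM O))) (fun _ => false) T 0 (init x) hP hagree
  refine ⟨?_, ?_⟩
  · rw [← hx, ← hlang]; exact hcount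
  · rw [← hx, ← hT, hasks]; exact hc2

/-- Stage lemma. If `¬ Det P` nothing to do. Take `n ≥ b` large (`params`), `x = replicate n false`,
`O_AB = patch O c n A B`. If for all disjoint `A`, `B` with `Inst o A B` the machine behaves correctly on
`x` with oracle `O_AB` (count and asks of `Decides`, `lang c O_AB x = o`), then `core` applied to
`acc c A B := Valid3 ... x O_AB c` is contradictory. So it misbehaves for some `A, B`:
`O' = O_AB`, and `b'` bounds the lengths of all strings that matter. -/
theorem stage (e : Rq) (O : Lang) (b : ℕ) (hO : Promise O) :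
    ∃ (O' : Lang) (b' : ℕ), b ≤ b' ∧ (∀ w : List Bool, w.length < b → O' w = O w) ∧ Promise O' ∧
      ∀ O'' : Lang, (∀ w : List Bool, w.length < b' → O'' w = O' w) → Req e O'' := by
  obtain ⟨c, k, P, N, kN, M, kM⟩ := e
  by_cases hP : Det P
  swap
  · exact ⟨O, b, le_rfl, fun _ _ => rfl, hO, fun O'' _ hD => hP hD.1⟩
  obtain ⟨n₀, hn₀⟩ := params c k kN kM
  obtain ⟨κ, h, h1, h2, h3⟩ := hn₀ (max n₀ b) (le_max_left _ _)
  set n := max n₀ b with hn
  obtain ⟨A, B, o, hd, hi, hbad⟩ := exists_bad c k P N kN M kM hP O n κ h h1 h2 h3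
  obtain ⟨b', hb'⟩ := good_congr c k P N kN M kM n hP (patch O c n A B)
  refine ⟨patch O c n A B, max b b', le_max_left _ _, ?_, ?_, ?_⟩
  · intro w hw
    exact patch_short O c n A B w (lt_of_lt_of_le hw (le_max_right _ _))
  · refine patch_promise hO c n A B hd ?_
    cases o with
    | true => left; exact (by simpa [Inst] using hi : 1 ≤ A.card ∧ 8 * B.card ≤ A.card).2
    | false => right; exact (by simpa [Inst] using hi : 1 ≤ B.card ∧ 8 * A.card ≤ B.card).2
  · intro O'' hO'' hD
    apply hbad
    apply hb' O'' (fun w hw => hO'' w (lt_of_lt_of_le hw (le_max_right _ _)))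
    have hx := hD.2 (List.replicate n false)
    simp only [List.length_replicate] at hx
    exact hx

end BppPath
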