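import Mathlib
import Pool.Agent.BppPath.StageDefs
import Pool.Agent.BppPath.Stage
import Pool.Agent.BppPath.Limit
import Pool.Agent.BppPath.Mach5
import Pool.Agent.BppPath.Path6
import Pool.Agent.BppPath.Code2

/-!
The main theorem.
-/

namespace BppPath

theorem main : ∃ O : Lang, ∀ c : ℕ, ∃ L : Lang, InBPPpath O L ∧
    ∀ K : Lang, InSigma2 O K → ∀ (P : Prog) (k : ℕ),
      ¬ Decides P O K (fun n => k * 2 ^ (n ^ c) + k) (fun n => c * Nat.log 2 n + c) L := by
  obtain ⟨f, hf⟩ := exists_surjective_nat Rq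
  obtain ⟨O, hO, hR⟩ := limit (fun e => Req (f e)) Promise promise_closed exists_promise
    (fun e O b hO => stage (f e) O b hO)
  refine ⟨O, fun c => ⟨lang c O, lang_mem c O hO, ?_⟩⟩
  rintro K ⟨K₀, hK₀, hK⟩ P k hdec
  obtain ⟨M, kM, rfl⟩ := hK₀.eq_npLang
  obtain ⟨N, kN, rfl⟩ := hK.eq_npLang
  obtain ⟨e, he⟩ := hf (c, k, P, N, kN, M, kM)
  have h := hR e
  simp only [he] at h
  exact h hdec

end BppPath
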